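import Pool.Agent.P.MP_064970_gt.Statement

/-!
# Meeks–Wolf: embedded minimal surfaces with sides, charts and area measure
-/

open MeasureTheory Set Filter Topology Metric
open scoped RealInnerProductSpace ENNReal ComplexConjugate Real

noncomputable section

namespace MW

/-- Horizontal part, as a complex number. -/
def pr (x : E) : ℂ := ⟨x 0, x 1⟩

/-- The point with horizontal part `y` and height `t`. -/
def pt (y : ℂ) (t : ℝ) : E := WithLp.toLp 2 ![y.re, y.im, t]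

/-- The vertical unit vector. -/
def e3 : E := pt 0 1

/-- Sine of the angle between two unit vectors. -/
def wedge (a b : E) : ℝ := ‖a - ⟪a, b⟫ • b‖

/-- A conformal harmonic immersion of a disc, `X = Re Φ`. -/
structure Chart where
  r : ℝ
  Φ : Fin 3 → ℂ → ℂ
  r_pos : 0 < r
  hol : ∀ i, DifferentiableOn ℂ (Φ i) (ball 0 r)
  null : ∀ z ∈ ball (0 : ℂ) r, ∑ i, deriv (Φ i) z ^ 2 = 0
  ne : ∀ z ∈ ball (0 : ℂ) r, ∃ i, deriv (Φ i) z ≠ 0

/-- The immersion. -/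
def Chart.X (c : Chart) (z : ℂ) : E := WithLp.toLp 2 fun i => (c.Φ i z).re

/-- The area element. -/
def Chart.jac (c : Chart) (z : ℂ) : ℝ := (∑ i, ‖deriv (c.Φ i) z‖ ^ 2) / 2

/-- `X_u`. -/
def Chart.Xu (c : Chart) (z : ℂ) : E := WithLp.toLp 2 fun i => (deriv (c.Φ i) z).re

/-- `X_v`. -/
def Chart.Xv (c : Chart) (z : ℂ) : E := WithLp.toLp 2 fun i => -(deriv (c.Φ i) z).im

/-- The real derivative of `X`. -/
def Chart.DX (c : Chart) (z : ℂ) : ℂ →L[ℝ] E :=
  Complex.reCLM.smulRight (c.Xu z) + Complex.imCLM.smulRight (c.Xv z)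

/-- `X` is injective and open onto its image in `S`. -/
structure Chart.Emb (c : Chart) (S : Set E) : Prop where
  inj : InjOn c.X (ball 0 c.r)
  opn : ∀ V : Set ℂ, IsOpen V → V ⊆ ball 0 c.r → ∃ U : Set E, IsOpen U ∧ c.X '' V = S ∩ U

/-- The same chart on a smaller disc. -/
def Chart.shrink (c : Chart) (ρ : ℝ) (h0 : 0 < ρ) (h : ρ ≤ c.r) : Chart where
  r := ρ
  Φ := c.Φ
  r_pos := h0
  hol := fun i => (c.hol i).mono (ball_subset_ball h)
  null := fun z hz => c.null z (ball_subset_ball h hz)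
  ne := fun z hz => c.ne z (ball_subset_ball h hz)

/-- A conformal chart of an abstract surface `Ω` mapped to space by `f`. -/
structure PChart {Ω : Type*} [TopologicalSpace Ω] (f : Ω → E) extends Chart where
  ψ : OpenPartialHomeomorph ℂ Ω
  src : ψ.source = ball 0 r
  eq : ∀ z ∈ ball (0 : ℂ) r, f (ψ z) = toChart.X z

/-- The chart parametrises an open piece of `S`, is orthogonal to `N` and computes `μ`. -/
structure Chart.Fits (c : Chart) (S : Set E) (N : E → E) (μ : Measure E) : Prop where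
  inj : InjOn c.X (ball 0 c.r)
  opn : ∀ V : Set ℂ, IsOpen V → V ⊆ ball 0 c.r → ∃ U : Set E, IsOpen U ∧ c.X '' V = S ∩ U
  nrm : ∀ z ∈ ball (0 : ℂ) c.r, ∑ i, ((N (c.X z) i : ℝ) : ℂ) * deriv (c.Φ i) z = 0
  area : ∀ A : Set ℂ, MeasurableSet A → A ⊆ ball 0 c.r →
    μ (c.X '' A) = ∫⁻ z in A, ENNReal.ofReal (c.jac z)

/-- An embedded minimal surface `S`, closed in the open set `O`, with sides `W`, `W'`, unit normal
`N` pointing from `W` to `W'`, and area measure `μ`. -/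
structure Surf where
  O : Set E
  S : Set E
  N : E → E
  W : Set E
  W' : Set E
  μ : Measure E
  isOpen_O : IsOpen O
  isOpen_W : IsOpen W
  isOpen_W' : IsOpen W'
  cover : O = W ∪ W' ∪ S
  disj : Disjoint W W'
  disjS : Disjoint W S
  disjS' : Disjoint W' S
  N_meas : Measurable N
  N_cont : ContinuousOn N S
  N_unit : ∀ x ∈ S, ‖N x‖ = 1
  side : ∀ x ∈ S, ∀ v : E, 0 < ⟪v, N x⟫ →
    ∀ᶠ t in 𝓝[>] (0 : ℝ), x + t • v ∈ W' ∧ x - t • v ∈ W
  chart : ∀ p ∈ S, ∃ c : Chart, c.X 0 = p ∧ c.Fits S N μ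
  conc : μ Sᶜ = 0

/-- The area bound. -/
def Surf.Bd (M : Surf) : Prop :=
  ∀ (p : E) (r : ℝ), 0 < r → M.μ (ball p r) ≤ ENNReal.ofReal (2 * π * r ^ 2)

/-- Members of the class: surfaces in all of space with the area bound. -/
structure Surf.Mem (M : Surf) : Prop where
  univ : M.O = univ
  bd : M.Bd

/-- The normal is constant. -/
def Surf.Flat (M : Surf) : Prop := ∀ x ∈ M.S, ∀ y ∈ M.S, M.N x = M.N y

/-- The normals differ by at most `1/10` in the ball. -/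
def Surf.Reg (M : Surf) (p : E) (r : ℝ) : Prop :=
  ∀ x ∈ M.S ∩ ball p r, ∀ y ∈ M.S ∩ ball p r, ‖M.N x - M.N y‖ ≤ 1 / 10

/-- The weight of the density. -/
def lam (s : ℝ) : ℝ := 4 / π * max (1 - s) 0 ^ 3

/-- Smooth density ratio of a measure. -/
def theta (μ : Measure E) (p : E) (r : ℝ) : ℝ := (∫ x, lam (‖x - p‖ ^ 2 / r ^ 2) ∂μ) / r ^ 2

/-- Smooth density ratio of a surface. -/
def Surf.Θ (M : Surf) (p : E) (r : ℝ) : ℝ := theta M.μ p r

/-- Support function with respect to `p`. -/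
def Surf.ψ (M : Surf) (p x : E) : ℝ := ⟪x - p, M.N x⟫

/-- Abstract stationary pair: a measure on (point, unit normal) with vanishing first variation
in `O`. -/
structure Stat (O : Set E) (V : Measure (E × E)) : Prop where
  unit : ∀ᵐ q ∂V, ‖q.2‖ = 1
  fin : ∀ K : Set E, IsCompact K → K ⊆ O → V (K ×ˢ univ) < ∞
  fv : ∀ ζ : E → ℝ, ContDiff ℝ 1 ζ → HasCompactSupport ζ → tsupport ζ ⊆ O → ∀ v : E,
    ∫ q, (fderiv ℝ ζ q.1 v - ⟪q.2, v⟫ * fderiv ℝ ζ q.1 q.2) ∂V = 0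

/-- `M'` is the image of `M` under `x ↦ c A x + b`. -/
structure IsSim (M M' : Surf) (A : E ≃ₗᵢ[ℝ] E) (c : ℝ) (b : E) : Prop where
  pos : 0 < c
  O : ∀ x, simMap A c b x ∈ M'.O ↔ x ∈ M.O
  S : ∀ x, simMap A c b x ∈ M'.S ↔ x ∈ M.S
  W : ∀ x, simMap A c b x ∈ M'.W ↔ x ∈ M.W
  W' : ∀ x, simMap A c b x ∈ M'.W' ↔ x ∈ M.W'
  N : ∀ x, M'.N (simMap A c b x) = A (M.N x)
  μ : M'.μ = ENNReal.ofReal (c ^ 2) • M.μ.map (simMap A c b)

/-- The same surface with the two sides exchanged. -/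
def Surf.swap (M : Surf) : Surf where
  O := M.O
  S := M.S
  N := fun x => -M.N x
  W := M.W'
  W' := M.W
  μ := M.μ
  isOpen_O := M.isOpen_O
  isOpen_W := M.isOpen_W'
  isOpen_W' := M.isOpen_W
  cover := by rw [M.cover, union_comm M.W M.W']
  disj := M.disj.symm
  disjS := M.disjS'
  disjS' := M.disjS
  N_meas := M.N_meas.neg
  N_cont := M.N_cont.neg
  N_unit := fun x hx => by rw [norm_neg]; exact M.N_unit x hx
  side := fun x hx v hv => by
    have h := M.side x hx (-v) (by simpa [inner_neg_left, inner_neg_right] using hv)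
    filter_upwards [h] with t ht
    simpa [smul_neg, sub_eq_add_neg, and_comm] using ht
  chart := fun p hp => by
    obtain ⟨c, hc, hf⟩ := M.chart p hp
    refine ⟨c, hc, hf.inj, hf.opn, fun z hz => ?_, hf.area⟩
    have := hf.nrm z hz
    simp only [PiLp.neg_apply, Complex.ofReal_neg, neg_mul, Finset.sum_neg_distrib, this, neg_zero]
  conc := M.conc

/-- Convergence along a filter to a surface in `M.O`. -/
structure Conv {ι : Type} (U : Filter ι) (Mk : ι → Surf) (M : Surf) : Prop where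
  pts : ∀ (xk : ι → E) (x : E), (∀ᶠ k in U, xk k ∈ (Mk k).S) → Tendsto xk U (𝓝 x) → x ∈ M.O →
    x ∈ M.S ∧ Tendsto (fun k => (Mk k).N (xk k)) U (𝓝 (M.N x))
  inW : ∀ K : Set E, IsCompact K → K ⊆ M.W → ∀ᶠ k in U, K ⊆ (Mk k).W
  inW' : ∀ K : Set E, IsCompact K → K ⊆ M.W' → ∀ᶠ k in U, K ⊆ (Mk k).W'
  meas : ∀ (F : E × E → ℝ) (K : Set E), Continuous F → IsCompact K → K ⊆ M.O →
    (∀ x n, x ∉ K → F (x, n) = 0) →
    Tendsto (fun k => ∫ x, F (x, (Mk k).N x) ∂(Mk k).μ) U (𝓝 (∫ x, F (x, M.N x) ∂M.μ))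

/-- The set where the normals of the sequence stay controlled. -/
def limO (U : Filter ℕ) (Mk : ℕ → Surf) : Set E := {x | ∃ r, 0 < r ∧ ∀ᶠ k in U, (Mk k).Reg x r}

/-- The limit set. -/
def limS (U : Filter ℕ) (Mk : ℕ → Surf) : Set E :=
  {x | x ∈ limO U Mk ∧ ∀ ε, 0 < ε → ∀ᶠ k in U, ∃ y ∈ (Mk k).S, dist y x < ε}

/-- The limit of the sides `W`. -/
def limW (U : Filter ℕ) (Mk : ℕ → Surf) : Set E :=
  {x | x ∈ limO U Mk ∧ ∃ δ, 0 < δ ∧ ∀ᶠ k in U, ball x δ ⊆ (Mk k).W}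

/-- The limit of the sides `W'`. -/
def limW' (U : Filter ℕ) (Mk : ℕ → Surf) : Set E :=
  {x | x ∈ limO U Mk ∧ ∃ δ, 0 < δ ∧ ∀ᶠ k in U, ball x δ ⊆ (Mk k).W'}

/-- Divergence of a vector field. -/
def dv (V : E → E) (x : E) : ℝ := ∑ i, fderiv ℝ V x (EuclideanSpace.single i 1) i

/-- Orthogonal projection along `A e3`, in the coordinates given by `A`. -/
def prA (A : E ≃ₗᵢ[ℝ] E) (x : E) : ℂ := pr (A.symm x)

end MW
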