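import Pool.Agent.P.MP_064970_gt.G.All
import Pool.Agent.P.MP_064970_gt.T.All
import Pool.Agent.P.MP_064970_gt.C.All
import Pool.Agent.P.MP_064970_gt.D.Fin
import Pool.Agent.P.MP_064970_gt.S6.Main

/-! The classification of connected members. -/

namespace MW

theorem f_propi : S_PROPI :=
  propi_of i_mono g_dec g_cone i_ge i_area i_lg i_fv i_shift t_ci t_cac t_edz i_const i_two t_sym
    (sym2_of i_glue) i_low i_flat1 i_uc g_cor g_tri i_conv i_lim

theorem f_main : S_MAIN := g_main f_propi d_final (ii3_of i_glue i_area0)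

end MW
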