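import Pool.Agent.P.MP_064970_gt.SI
import Pool.Agent.P.MP_064970_gt.S6.Defs

/-! Pictures (flat, cross), chords, bigraphs: definitions for sections 2 to 6. -/

open MeasureTheory Set Filter Topology Metric
open scoped RealInnerProductSpace ENNReal ComplexConjugate Real

noncomputable section

namespace MW

/-- The flat picture with thin side `W`: centre `p`, scale `ρ`, accuracy `δ`, normal `ν`. -/
structure Surf.FlatW (M : Surf) (p : E) (ρ δ : ℝ) (ν : E) : Prop where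
  unit : ‖ν‖ = 1
  slab : ∀ x ∈ M.S ∩ ball p (ρ / δ), |⟪x - p, ν⟫| ≤ δ * ρ
  side : ∀ x ∈ ball p (ρ / δ), δ * ρ < |⟪x - p, ν⟫| → x ∈ M.W'
  tilt : ∫ x in ball p (ρ / δ), wedge (M.N x) ν ^ 2 ∂M.μ ≤ δ * ρ ^ 2
  dens : ∀ q ∈ ball p (ρ / δ), ⟪q - p, ν⟫ = 0 → 2 - M.Θ q (δ * ρ) ≤ δ

/-- The cross picture: two planes through `p` with normals `ν₁`, `ν₂`. -/
structure Surf.Cross (M : Surf) (p : E) (ρ δ : ℝ) (ν₁ ν₂ : E) : Prop where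
  unit₁ : ‖ν₁‖ = 1
  unit₂ : ‖ν₂‖ = 1
  pos₁ : ∀ x ∈ M.S ∩ ball p (ρ / δ), δ * ρ < ⟪x - p, ν₂⟫ →
    |⟪x - p, ν₁⟫| ≤ δ * ρ ∧ ‖M.N x - ν₁‖ ≤ δ
  neg₁ : ∀ x ∈ M.S ∩ ball p (ρ / δ), ⟪x - p, ν₂⟫ < -(δ * ρ) →
    |⟪x - p, ν₁⟫| ≤ δ * ρ ∧ ‖M.N x + ν₁‖ ≤ δ
  pos₂ : ∀ x ∈ M.S ∩ ball p (ρ / δ), δ * ρ < ⟪x - p, ν₁⟫ →
    |⟪x - p, ν₂⟫| ≤ δ * ρ ∧ ‖M.N x - ν₂‖ ≤ δ
  neg₂ : ∀ x ∈ M.S ∩ ball p (ρ / δ), ⟪x - p, ν₁⟫ < -(δ * ρ) →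
    |⟪x - p, ν₂⟫| ≤ δ * ρ ∧ ‖M.N x + ν₂‖ ≤ δ
  pat : ∀ x ∈ ball p (ρ / δ), δ * ρ < |⟪x - p, ν₁⟫| → δ * ρ < |⟪x - p, ν₂⟫| →
    (⟪x - p, ν₁⟫ * ⟪x - p, ν₂⟫ < 0 → x ∈ M.W) ∧ (0 < ⟪x - p, ν₁⟫ * ⟪x - p, ν₂⟫ → x ∈ M.W')
  near : ∀ q ∈ ball p (ρ / δ), ∀ r, δ * ρ ≤ r → r ≤ ρ / δ → 3 / 2 ≤ M.Θ q r →
    |⟪q - p, ν₁⟫| ≤ r / 2 ∧ |⟪q - p, ν₂⟫| ≤ r / 2
  dens : ∀ q ∈ ball p (ρ / δ), ⟪q - p, ν₁⟫ = 0 → ⟪q - p, ν₂⟫ = 0 → 2 - M.Θ q (δ * ρ) ≤ δ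

/-- Case II: wherever the density is close to two the picture is flat with thin side `W`. -/
def Surf.TypeII (ε : ℝ → ℝ) (M : Surf) : Prop :=
  ∀ δ : ℝ, 0 < δ → δ ≤ 1 → ∀ (p : E) (ρ : ℝ), 0 < ρ → 2 - M.Θ p ρ ≤ ε δ → ∃ ν, M.FlatW p ρ δ ν

/-- The limit pictures of a sequence. -/
def Tri (U : Filter ℕ) (Mk : ℕ → Surf) (pk : ℕ → E) (ρk : ℕ → ℝ) : Prop :=
  (∃ ν, ∀ δ, 0 < δ → δ ≤ 1 → ∀ᶠ k in U, (Mk k).FlatW (pk k) (ρk k) δ ν) ∨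
  (∃ ν, ∀ δ, 0 < δ → δ ≤ 1 → ∀ᶠ k in U, (Mk k).swap.FlatW (pk k) (ρk k) δ ν) ∨
  (∃ ν₁ ν₂, |⟪ν₁, ν₂⟫| < 1 ∧ ∀ δ, 0 < δ → δ ≤ 1 → ∀ᶠ k in U, (Mk k).Cross (pk k) (ρk k) δ ν₁ ν₂)

/-- Distance from `x` to the next point of `S` in the direction `-e` (zero if there is none). -/
def Surf.ell (M : Surf) (e x : E) : ℝ := sInf {t : ℝ | 0 < t ∧ x - t • e ∈ M.S}

/-- The other end of the chord that starts at `x`. -/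
def Surf.partner (M : Surf) (e x : E) : E := x - M.ell e x • e

/-- Height of the midpoint of the chord. -/
def Surf.alpha (M : Surf) (e x : E) : ℝ := ⟪x, e⟫ - M.ell e x / 2

/-- Mirror image of a vector in the plane orthogonal to `e`. -/
def mirror (e b : E) : E := b - (2 * ⟪b, e⟫) • e

/-- Reflection of a point in the plane `⟪x, e⟫ = a`. -/
def refl (e : E) (a : ℝ) (x : E) : E := x - (2 * (⟪x, e⟫ - a)) • e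

/-- Energy density of a chord with end normals `a` (top) and `b` (bottom). -/
def ed (e a b : E) : ℝ := ‖a - mirror e b‖ ^ 2 / 2

/-- Energy density of the chord that starts at `x`. -/
def Surf.edx (M : Surf) (e x : E) : ℝ := ed e (M.N x) (M.N (M.partner e x))

/-- Top points for the direction `e`. -/
def Surf.top (M : Surf) (e : E) : Set E := {x | 0 < ⟪M.N x, e⟫}

/-- Chord energy of the top points in `A`. -/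
def Surf.E0 (M : Surf) (e : E) (A : Set E) : ℝ :=
  ∫ x in A ∩ M.top e, M.edx e x * ⟪M.N x, e⟫ ∂M.μ

/-- The horizontal layer `|x₃| < T`. -/
def lay (T : ℝ) : Set E := {x | |x 2| < T}

/-- The vertical cylinder over `K` of half height `T`. -/
def cyl (K : Set ℂ) (T : ℝ) : Set E := {x | pr x ∈ K ∧ |x 2| < T}

/-- Over `K` the bands `T₀ ≤ |x₃| ≤ T` lie in `W'`. -/
def Surf.Slab (M : Surf) (K : Set ℂ) (T₀ T : ℝ) : Prop :=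
  ∀ y ∈ K, ∀ t : ℝ, T₀ ≤ |t| → |t| ≤ T → pt y t ∈ M.W'

/-- The lowest points of `S` in the layer. -/
def Surf.Bot (M : Surf) (T : ℝ) : Set E :=
  {x | x ∈ M.S ∧ |x 2| < T ∧ ∀ t : ℝ, -T < t → t < x 2 → pt (pr x) t ∉ M.S}

/-- The flux through the lowest points. -/
def Surf.Flux (M : Surf) (T : ℝ) (η : ℂ → ℝ) : ℝ :=
  ∫ x in M.Bot T, fderiv ℝ η (pr x) (pr (M.N x)) * |M.N x 2| ∂M.μ

/-- A double cone about `e` lies in `W'` outside a ball. -/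
def Surf.CXg (M : Surf) (e : E) : Prop :=
  ∃ R L : ℝ, 0 < R ∧ 0 < L ∧ ∀ x : E, R ≤ ‖x‖ → L * ‖x - ⟪x, e⟫ • e‖ < |⟪x, e⟫| → x ∈ M.W'

/-- The line through `x` with direction `e` is transversal to `S`. -/
def Surf.RegLine (M : Surf) (e x : E) : Prop :=
  ∀ t : ℝ, x + t • e ∈ M.S → ⟪M.N (x + t • e), e⟫ ≠ 0

/-- The energy density vanishes on every chord of every regular line. -/
def Surf.EdZero (M : Surf) (e : E) : Prop :=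
  ∀ x ∈ M.S, M.RegLine e x → 0 < ⟪M.N x, e⟫ → M.edx e x = 0

/-- `M` is symmetric in the plane `⟪x, e⟫ = a` and the upper half is a graph. -/
structure Surf.Bigraph (M : Surf) (e : E) (a : ℝ) : Prop where
  unit : ‖e‖ = 1
  sym : ∀ x, refl e a x ∈ M.S ↔ x ∈ M.S
  symW : ∀ x, refl e a x ∈ M.W ↔ x ∈ M.W
  symW' : ∀ x, refl e a x ∈ M.W' ↔ x ∈ M.W'
  symN : ∀ x ∈ M.S, M.N (refl e a x) = mirror e (M.N x)
  pos : ∀ x ∈ M.S, a < ⟪x, e⟫ → 0 < ⟪M.N x, e⟫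
  zero : ∀ x ∈ M.S, ⟪x, e⟫ = a → ⟪M.N x, e⟫ = 0
  ne : ∃ x ∈ M.S, ⟪x, e⟫ = a
  up : ∀ x ∈ M.S, a ≤ ⟪x, e⟫ → ∀ t : ℝ, 0 < t → x + t • e ∈ M.W'
  mid : ∀ x ∈ M.S, ∀ t : ℝ, 0 < t → t < 2 * (⟪x, e⟫ - a) → x - t • e ∈ M.W

/-- The first horizontal unit vector. -/
def ex : E := pt 1 0

/-- The second horizontal unit vector. -/
def ey : E := pt Complex.I 0

end MW
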