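import Pool.Agent.P.MP_064970_gt.Base

/-! Statements of the infrastructure (section 1 of the paper). -/

open scoped Manifold ContDiff
open MeasureTheory Set Filter Topology Metric
open scoped RealInnerProductSpace ENNReal ComplexConjugate Real

noncomputable section

namespace MW

universe u

/-- The area measure of an abstract conformal surface. -/
def S_MEAS : Prop := ∀ (Ω : Type u) [TopologicalSpace Ω] [SecondCountableTopology Ω]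
  [MeasurableSpace Ω] [BorelSpace Ω] (f : Ω → E), (∀ p, ∃ c : PChart f, c.ψ 0 = p) →
  ∃ m : Measure Ω, ∀ (c : PChart f) (A : Set ℂ), MeasurableSet A → A ⊆ ball 0 c.r →
    m (c.ψ '' A) = ∫⁻ z in A, ENNReal.ofReal (c.jac z)

/-- The area measure of an embedded surface. -/
def S_MEASS : Prop := ∀ S : Set E, MeasurableSet S → (∀ p ∈ S, ∃ c : Chart, c.X 0 = p ∧ c.Emb S) →
  ∃ μ : Measure E, μ Sᶜ = 0 ∧ ∀ c : Chart, c.Emb S → ∀ A : Set ℂ, MeasurableSet A →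
    A ⊆ ball 0 c.r → μ (c.X '' A) = ∫⁻ z in A, ENNReal.ofReal (c.jac z)

/-- First variation for an abstract conformal surface that is proper over `O`. -/
def S_FVG : Prop := ∀ (Ω : Type u) [TopologicalSpace Ω] [T2Space Ω] [MeasurableSpace Ω]
  [BorelSpace Ω] (f n : Ω → E) (m : Measure Ω) (O : Set E), Continuous f → Measurable n →
  (∀ p, ‖n p‖ = 1) →
  (∀ p, ∃ c : PChart f, c.ψ 0 = p ∧
    (∀ z ∈ ball (0 : ℂ) c.r, ⟪n (c.ψ z), c.Xu z⟫ = 0 ∧ ⟪n (c.ψ z), c.Xv z⟫ = 0) ∧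
    ∀ A : Set ℂ, MeasurableSet A → A ⊆ ball 0 c.r →
      m (c.ψ '' A) = ∫⁻ z in A, ENNReal.ofReal (c.jac z)) →
  (∀ K : Set E, IsCompact K → K ⊆ O → IsCompact (f ⁻¹' K)) →
  Stat O (m.map fun p => (f p, n p))

/-- First variation for a surface, for a relatively clopen part `S₁` of it. -/
def S_FVC : Prop := ∀ (M : Surf) (S₁ : Set E), S₁ ⊆ M.S → (∃ U, IsOpen U ∧ S₁ = M.S ∩ U) →
  (∃ U, IsOpen U ∧ M.S \ S₁ = M.S ∩ U) →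
  Stat M.O ((M.μ.restrict S₁).map fun x => (x, M.N x))

/-- First variation (I1), scalar and vector form. -/
def S_FV : Prop := ∀ M : Surf,
  (∀ ζ : E → ℝ, ContDiff ℝ 1 ζ → HasCompactSupport ζ → tsupport ζ ⊆ M.O → ∀ v : E,
    ∫ x, (fderiv ℝ ζ x v - ⟪M.N x, v⟫ * fderiv ℝ ζ x (M.N x)) ∂M.μ = 0) ∧
  (∀ Y : E → E, ContDiff ℝ 1 Y → HasCompactSupport Y → tsupport Y ⊆ M.O →
    ∫ x, (dv Y x - ⟪M.N x, fderiv ℝ Y x (M.N x)⟫) ∂M.μ = 0)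

/-- Monotonicity (I2) for a stationary pair. -/
def S_MONOV : Prop := ∀ (O : Set E) (V : Measure (E × E)), Stat O V → ∀ (p : E) (r s : ℝ), 0 < r →
  r ≤ s → closedBall p s ⊆ O →
    theta (V.map Prod.fst) p r ≤ theta (V.map Prod.fst) p s ∧
    theta (V.map Prod.fst) p s - theta (V.map Prod.fst) p r
      ≤ 2 / r ^ 4 * ∫ q in ball p s ×ˢ univ, ⟪q.1 - p, q.2⟫ ^ 2 ∂V ∧
    (4 * r ≤ s → ∫ q in ball p (s / 2) ×ˢ univ, ⟪q.1 - p, q.2⟫ ^ 2 ∂V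
      ≤ 10 * s ^ 4 * (theta (V.map Prod.fst) p s - theta (V.map Prod.fst) p r)) ∧
    ∫ q in (ball p (s / 2) \ ball p r) ×ˢ univ, ⟪q.1 - p, q.2⟫ ^ 2 / ‖q.1 - p‖ ^ 4 ∂V
      ≤ 10 * (theta (V.map Prod.fst) p s - theta (V.map Prod.fst) p r)

/-- Monotonicity (I2) for a surface. -/
def S_MONO : Prop := ∀ (M : Surf) (p : E) (r s : ℝ), 0 < r → r ≤ s → closedBall p s ⊆ M.O →
  M.Θ p r ≤ M.Θ p s ∧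
  M.Θ p s - M.Θ p r ≤ 2 / r ^ 4 * ∫ x in ball p s, M.ψ p x ^ 2 ∂M.μ ∧
  (4 * r ≤ s → ∫ x in ball p (s / 2), M.ψ p x ^ 2 ∂M.μ ≤ 10 * s ^ 4 * (M.Θ p s - M.Θ p r)) ∧
  ∫ x in ball p (s / 2) \ ball p r, M.ψ p x ^ 2 / ‖x - p‖ ^ 4 ∂M.μ ≤ 10 * (M.Θ p s - M.Θ p r)

/-- Density one at the centre of a chart. -/
def S_LOW0 : Prop := ∀ (c : Chart) (ρ : ℝ), 0 < ρ → ρ < c.r → ∀ ε : ℝ, 0 < ε →
  ∀ᶠ r in 𝓝[>] (0 : ℝ),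
    1 - ε ≤ (∫ z in ball (0 : ℂ) ρ, lam (‖c.X z - c.X 0‖ ^ 2 / r ^ 2) * c.jac z) / r ^ 2

/-- Lower density and lower mass bound. -/
def S_LOW : Prop := ∀ (M : Surf) (p : E) (r : ℝ), p ∈ M.S → 0 < r → closedBall p r ⊆ M.O →
  1 ≤ M.Θ p r ∧ π / 4 * r ^ 2 ≤ M.μ.real (ball p r)

/-- SHIFT. -/
def S_SHIFT : Prop := ∀ M : Surf, M.Mem → ∀ (p v : E) (r : ℝ), 0 < r →
  |M.Θ (p + v) r - M.Θ p r| ≤ 8 / r ^ 4 *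
    ∫ x in ball p (r + ‖v‖), |⟪M.N x, v⟫| * (|M.ψ p x| + |⟪M.N x, v⟫|) ∂M.μ

/-- Gluing of local sections on a convex open set. -/
def S_GLUE : Prop := ∀ (V : Type) [NormedAddCommGroup V] [NormedSpace ℝ V] (G : Type)
  [AddCommGroup G] (K : Set V) (Good : (V → G) → V → Prop), Convex ℝ K → IsOpen K →
  (∀ s s' x, Good s x → s =ᶠ[𝓝 x] s' → Good s' x) →
  (∀ x ∈ K, ∃ s, ∀ᶠ y in 𝓝 x, Good s y) →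
  (∀ s s' x, x ∈ K → (∀ᶠ y in 𝓝 x, Good s y ∧ Good s' y) → ∃ g : G, ∀ᶠ y in 𝓝 x, s y = s' y + g) →
  (∀ s x (g : G), Good s x → Good (fun y => s y + g) x) →
  ∃ s, ∀ x ∈ K, Good s x

/-- Local graphs over the horizontal plane. -/
def S_LG : Prop := ∀ (M : Surf) (x : E), x ∈ M.S → M.N x 2 ≠ 0 →
  ∃ (ρ δ : ℝ) (u : ℂ → ℝ), 0 < ρ ∧ 0 < δ ∧ ContDiffOn ℝ ∞ u (ball (pr x) ρ) ∧ u (pr x) = x 2 ∧
    (∀ y ∈ ball (pr x) ρ, |u y - x 2| < δ ∧ M.N (pt y (u y)) 2 ≠ 0 ∧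
      (∀ w, fderiv ℝ u y w = -⟪pr (M.N (pt y (u y))), w⟫ / M.N (pt y (u y)) 2) ∧
      ∀ t, |t - x 2| < δ → (pt y t ∈ M.S ↔ t = u y))

/-- The quantitative chart. -/
def S_QCH : Prop := ∃ c₀ c₁ : ℝ, 0 < c₁ ∧ c₁ ≤ c₀ ∧ c₀ ≤ 1 / 4 ∧
  ∀ (M : Surf) (p : E) (ρ : ℝ), p ∈ M.S → 0 < ρ → ball p ρ ⊆ M.O → M.Reg p ρ →
    ∃ c : Chart, c.r = c₀ * ρ ∧ (∀ i, c.Φ i 0 = (p i : ℝ)) ∧ c.Fits M.S M.N M.μ ∧
      (∀ z ∈ ball (0 : ℂ) c.r, ∀ w ∈ ball (0 : ℂ) c.r,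
        ‖z - w‖ / 2 ≤ ‖c.X z - c.X w‖ ∧ ‖c.X z - c.X w‖ ≤ 2 * ‖z - w‖) ∧
      M.S ∩ ball p (c₁ * ρ) ⊆ c.X '' ball 0 c.r

/-- Curvature estimate. -/
def S_CE : Prop := ∃ c C : ℝ, 0 < c ∧ c ≤ 1 ∧ 0 < C ∧
  ∀ (M : Surf) (p : E) (ρ : ℝ), p ∈ M.S → 0 < ρ → ball p ρ ⊆ M.O → M.Reg p ρ →
    ∀ x ∈ M.S ∩ ball p (c * ρ), ∀ y ∈ M.S ∩ ball p (c * ρ), ‖M.N x - M.N y‖ ≤ C * ‖x - y‖ / ρ

/-- Gradient estimate for affine functions. -/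
def S_GE : Prop := ∃ C : ℝ, 0 < C ∧ ∀ M : Surf, M.Mem → ∀ (p : E) (ρ : ℝ), p ∈ M.S → 0 < ρ →
  M.Reg p ρ → ∀ (a : E) (c₀ : ℝ),
    |⟪p, a⟫ - c₀| + ρ * ‖a - ⟪a, M.N p⟫ • M.N p‖
      ≤ C / ρ ^ 2 * ∫ x in ball p ρ, |⟪x, a⟫ - c₀| ∂M.μ

open Classical in
/-- The area formula for the vertical projection, and almost every vertical line is regular. -/
def S_AREA0 : Prop := ∀ M : Surf,
  (∀ g : E → ℝ≥0∞, Measurable g →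
    AEMeasurable (fun y : ℂ => ∑' t : ℝ, if pt y t ∈ M.S then g (pt y t) else 0) ∧
    ∫⁻ x, g x * ENNReal.ofReal |M.N x 2| ∂M.μ
      = ∫⁻ y : ℂ, ∑' t : ℝ, if pt y t ∈ M.S then g (pt y t) else 0) ∧
  ∀ᵐ y : ℂ, ∀ t : ℝ, pt y t ∈ M.S → M.N (pt y t) 2 ≠ 0

open Classical in
/-- The area formula for the projection along `A e3`, and its corollaries. -/
def S_AREA : Prop := ∀ (M : Surf) (A : E ≃ₗᵢ[ℝ] E),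
  (∀ g : E → ℝ≥0∞, Measurable g →
    AEMeasurable (fun y : ℂ => ∑' t : ℝ, if A (pt y t) ∈ M.S then g (A (pt y t)) else 0) ∧
    ∫⁻ x, g x * ENNReal.ofReal |⟪M.N x, A e3⟫| ∂M.μ
      = ∫⁻ y : ℂ, ∑' t : ℝ, if A (pt y t) ∈ M.S then g (A (pt y t)) else 0) ∧
  (∀ᵐ y : ℂ, ∀ t : ℝ, A (pt y t) ∈ M.S → ⟪M.N (A (pt y t)), A e3⟫ ≠ 0) ∧
  ∀ G : Set E, MeasurableSet G → G ⊆ M.S → NullMeasurableSet (prA A '' G) ∧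
    ∀ f : ℂ → ℝ≥0∞, Measurable f →
      (∫⁻ y in prA A '' G, f y
        ≤ ∫⁻ x in G, f (prA A x) * ENNReal.ofReal |⟪M.N x, A e3⟫| ∂M.μ) ∧
      (∀ n : ℕ, (∀ y : ℂ, (G ∩ prA A ⁻¹' {y}).encard ≤ n) →
        ∫⁻ x in G, f (prA A x) * ENNReal.ofReal |⟪M.N x, A e3⟫| ∂M.μ
          ≤ n * ∫⁻ y in prA A '' G, f y)

/-- Real valued area formula on a bounded set, as a finite sum on almost every line. -/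
def S_AREAR : Prop := ∀ M : Surf, M.Mem → ∀ (g : E → ℝ) (R C : ℝ), Measurable g →
  (∀ x, |g x| ≤ C) → (∀ x, R ≤ ‖x‖ → g x = 0) →
    (∀ᵐ y : ℂ, {t : ℝ | pt y t ∈ M.S ∧ |t| ≤ R}.Finite) ∧
    Integrable (fun y : ℂ => ∑ᶠ t ∈ {t : ℝ | pt y t ∈ M.S}, g (pt y t)) ∧
    ∫ x, g x * |M.N x 2| ∂M.μ = ∫ y : ℂ, ∑ᶠ t ∈ {t : ℝ | pt y t ∈ M.S}, g (pt y t)

/-- Single sheets have density close to one. -/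
def S_UP : Prop := ∀ M : Surf, M.Mem → ∀ (p : E) (ρ : ℝ), 0 < ρ → M.Reg p ρ → M.Θ p ρ ≤ 5 / 4

/-- Gauss–Green on the side `W`. -/
def S_GG : Prop := ∀ M : Surf, M.Mem → ∀ V : E → E, ContDiff ℝ 1 V → HasCompactSupport V →
  ∫ x in M.W, dv V x = ∫ x, ⟪V x, M.N x⟫ ∂M.μ

/-- Limit normal and sides. -/
def S_LIM1 : Prop := ∀ (U : Ultrafilter ℕ) (Mk : ℕ → Surf), (∀ k, (Mk k).Mem) →
  IsOpen (limO U Mk) ∧ IsOpen (limW U Mk) ∧ IsOpen (limW' U Mk) ∧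
  limO U Mk = limW U Mk ∪ limW' U Mk ∪ limS U Mk ∧ Disjoint (limW U Mk) (limW' U Mk) ∧
  Disjoint (limW U Mk) (limS U Mk) ∧ Disjoint (limW' U Mk) (limS U Mk) ∧
  (∀ K : Set E, IsCompact K → K ⊆ limW U Mk → ∀ᶠ k in (U : Filter ℕ), K ⊆ (Mk k).W) ∧
  (∀ K : Set E, IsCompact K → K ⊆ limW' U Mk → ∀ᶠ k in (U : Filter ℕ), K ⊆ (Mk k).W') ∧
  ∃ N : E → E, Measurable N ∧ ContinuousOn N (limS U Mk) ∧ (∀ x ∈ limS U Mk, ‖N x‖ = 1) ∧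
    (∀ x ∈ limS U Mk, ∀ v : E, 0 < ⟪v, N x⟫ →
      ∀ᶠ t in 𝓝[>] (0 : ℝ), x + t • v ∈ limW' U Mk ∧ x - t • v ∈ limW U Mk) ∧
    ∀ (xk : ℕ → E) (x : E), (∀ᶠ k in (U : Filter ℕ), xk k ∈ (Mk k).S) → Tendsto xk U (𝓝 x) →
      x ∈ limO U Mk → x ∈ limS U Mk ∧ Tendsto (fun k => (Mk k).N (xk k)) U (𝓝 (N x))

/-- Limit charts. -/
def S_LIM2 : Prop := ∀ (U : Ultrafilter ℕ) (Mk : ℕ → Surf) (N : E → E), (∀ k, (Mk k).Mem) →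
  (∀ (xk : ℕ → E) (x : E), (∀ᶠ k in (U : Filter ℕ), xk k ∈ (Mk k).S) → Tendsto xk U (𝓝 x) →
      x ∈ limO U Mk → x ∈ limS U Mk ∧ Tendsto (fun k => (Mk k).N (xk k)) U (𝓝 (N x))) →
  ∀ p ∈ limS U Mk, ∃ (c : Chart) (ck : ℕ → Chart) (δ : ℝ), 0 < δ ∧ c.X 0 = p ∧
    c.Emb (limS U Mk) ∧
    (∀ z ∈ ball (0 : ℂ) c.r, ⟪N (c.X z), c.Xu z⟫ = 0 ∧ ⟪N (c.X z), c.Xv z⟫ = 0) ∧
    (∀ z ∈ ball (0 : ℂ) c.r, c.jac z ≤ 4) ∧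
    (∀ᶠ k in (U : Filter ℕ), (ck k).r = c.r ∧ (ck k).Fits (Mk k).S (Mk k).N (Mk k).μ ∧
      (Mk k).S ∩ ball p δ ⊆ (ck k).X '' ball 0 c.r) ∧
    limS U Mk ∩ ball p δ ⊆ c.X '' ball 0 c.r ∧
    TendstoUniformlyOn (fun k => (ck k).X) c.X U (ball 0 c.r) ∧
    TendstoUniformlyOn (fun k => (ck k).jac) c.jac U (ball 0 c.r) ∧
    TendstoUniformlyOn (fun k z => (Mk k).N ((ck k).X z)) (fun z => N (c.X z)) U (ball 0 c.r)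

/-- Compactness (I5). -/
def S_LIM : Prop := ∀ (U : Ultrafilter ℕ) (Mk : ℕ → Surf), (∀ k, (Mk k).Mem) →
  ∃ M : Surf, M.O = limO U Mk ∧ M.Bd ∧ Conv (U : Filter ℕ) Mk M

/-- Consequences of convergence. -/
def S_CONV : Prop := ∀ (U : Ultrafilter ℕ) (Mk : ℕ → Surf) (M : Surf), (∀ k, (Mk k).Mem) →
  Conv (U : Filter ℕ) Mk M →
  (∀ K : Set E, IsCompact K → K ⊆ M.O → ∀ ε, 0 < ε → ∀ᶠ k in (U : Filter ℕ),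
    ∀ x ∈ (Mk k).S ∩ K, ∃ y ∈ M.S, ‖x - y‖ < ε ∧ ‖(Mk k).N x - M.N y‖ < ε) ∧
  (∀ x ∈ M.S, ∃ xk : ℕ → E, (∀ᶠ k in (U : Filter ℕ), xk k ∈ (Mk k).S) ∧ Tendsto xk U (𝓝 x) ∧
    Tendsto (fun k => (Mk k).N (xk k)) U (𝓝 (M.N x))) ∧
  (∀ (p : E) (r : ℝ), 0 < r → closedBall p r ⊆ M.O →
    Tendsto (fun k => (Mk k).Θ p r) U (𝓝 (M.Θ p r))) ∧
  (∀ (p : E) (r : ℝ), (∀ᶠ k in (U : Filter ℕ), (Mk k).Reg p r) → M.Reg p r) ∧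
  (∀ x ∈ M.O, (∀ᶠ k in (U : Filter ℕ), x ∈ (Mk k).W) → x ∉ M.W') ∧
  (∀ x ∈ M.O, (∀ᶠ k in (U : Filter ℕ), x ∈ (Mk k).W') → x ∉ M.W) ∧
  (∀ G : Set E, IsOpen G → G ⊆ M.O → (∀ x ∈ G, ∀ᶠ k in (U : Filter ℕ), x ∈ (Mk k).W) →
    G ⊆ M.W) ∧
  (∀ G : Set E, IsOpen G → G ⊆ M.O → (∀ x ∈ G, ∀ᶠ k in (U : Filter ℕ), x ∈ (Mk k).W') →
    G ⊆ M.W') ∧
  Conv (U : Filter ℕ) (fun k => (Mk k).swap) M.swap

/-- A member converges to itself. -/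
def S_CONST : Prop := ∀ (U : Filter ℕ) [U.NeBot] (M : Surf), M.Mem → Conv U (fun _ => M) M

/-- Transversal crossings persist. -/
def S_PERSIST : Prop := ∀ (U : Ultrafilter ℕ) (Mk : ℕ → Surf) (M : Surf), (∀ k, (Mk k).Mem) →
  Conv (U : Filter ℕ) Mk M → ∀ a e : E, (∀ t ∈ Icc (0 : ℝ) 1, a + t • e ∈ M.O) → a ∉ M.S →
  a + e ∉ M.S → (∀ t ∈ Icc (0 : ℝ) 1, a + t • e ∈ M.S → ⟪e, M.N (a + t • e)⟫ ≠ 0) →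
  ∃ ε₀ : ℝ, 0 < ε₀ ∧
    (∀ s ∈ Icc (0 : ℝ) 1, ∀ t ∈ Icc (0 : ℝ) 1, a + s • e ∈ M.S → a + t • e ∈ M.S → s ≠ t →
      4 * ε₀ < |s - t|) ∧
    ∀ ε, 0 < ε → ∃ δ, 0 < δ ∧ ∀ᶠ k in (U : Filter ℕ), ∀ a' e' : E, ‖a' - a‖ < δ → ‖e' - e‖ < δ →
      (a ∈ M.W → a' ∈ (Mk k).W) ∧ (a ∈ M.W' → a' ∈ (Mk k).W') ∧
      (a + e ∈ M.W → a' + e' ∈ (Mk k).W) ∧ (a + e ∈ M.W' → a' + e' ∈ (Mk k).W') ∧
      (∀ t ∈ Icc (0 : ℝ) 1, a + t • e ∈ M.S →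
        ∃ t' ∈ Icc (0 : ℝ) 1, |t' - t| < ε ∧ a' + t' • e' ∈ (Mk k).S) ∧
      (∀ t' ∈ Icc (0 : ℝ) 1, a' + t' • e' ∈ (Mk k).S → ∃ t ∈ Icc (0 : ℝ) 1, a + t • e ∈ M.S ∧
        |t' - t| < ε ∧ ‖(Mk k).N (a' + t' • e') - M.N (a + t • e)‖ < ε) ∧
      (∀ s' ∈ Icc (0 : ℝ) 1, ∀ t' ∈ Icc (0 : ℝ) 1, a' + s' • e' ∈ (Mk k).S →
        a' + t' • e' ∈ (Mk k).S → |s' - t'| ≤ 2 * ε₀ → s' = t')

/-- Point picking (I6). -/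
def S_PP : Prop := ∀ M : Surf, M.Mem → ∀ (x : E) (r L : ℝ), 0 < r → 1 ≤ L → ¬ M.Reg x r →
  ∃ (q : E) (ρ : ℝ), 0 < ρ ∧ ρ ≤ r ∧ ‖q - x‖ ≤ 2 * L * r ∧ ¬ M.Reg q (2 * ρ) ∧
    ∀ z ∈ ball q (L * ρ), M.Reg z (ρ / 2)

/-- Conical or cylindrical pieces are flat; flat pieces are pieces of planes. -/
def S_FLAT1 : Prop := ∀ (M : Surf) (x : E), x ∈ M.S →
  (∀ p : E, x ≠ p → (∀ᶠ y in 𝓝[M.S] x, ⟪y - p, M.N y⟫ = 0) → ∀ᶠ y in 𝓝[M.S] x, M.N y = M.N x) ∧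
  (∀ v : E, v ≠ 0 → (∀ᶠ y in 𝓝[M.S] x, ⟪v, M.N y⟫ = 0) → ∀ᶠ y in 𝓝[M.S] x, M.N y = M.N x) ∧
  (∀ ν : E, ν ≠ 0 → (∀ᶠ y in 𝓝[M.S] x, ⟪y - x, ν⟫ = 0) →
    (∀ᶠ y in 𝓝[M.S] x, M.N y = M.N x) ∧ ∀ᶠ y in 𝓝 x, (y ∈ M.S ↔ ⟪y - x, ν⟫ = 0)) ∧
  ((∀ᶠ y in 𝓝[M.S] x, M.N y = M.N x) → ∀ᶠ y in 𝓝 x, (y ∈ M.S ↔ ⟪y - x, M.N x⟫ = 0))

/-- A connected surface with a flat piece is flat; a flat member is a plane. -/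
def S_FLAT2 : Prop :=
  (∀ M : Surf, IsPreconnected M.S → (∃ x ∈ M.S, ∀ᶠ y in 𝓝[M.S] x, M.N y = M.N x) → M.Flat) ∧
  (∀ M : Surf, M.Mem → M.Flat → ∀ p ∈ M.S, M.S = {x | ⟪x - p, M.N p⟫ = 0}) ∧
  (∀ M : Surf, M.Mem → (∀ r, M.Reg 0 r) → M.Flat)

/-- Unique continuation; the set determines the normal up to sign. -/
def S_UC : Prop := ∀ (M₁ M₂ : Surf) (q : E), q ∈ M₁.S → q ∈ M₂.S →
  ((∃ᶠ x in 𝓝[M₁.S] q, ∀ᶠ y in 𝓝[M₁.S] x, y ∈ M₂.S) → ∀ᶠ y in 𝓝[M₁.S] q, y ∈ M₂.S) ∧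
  ((∀ᶠ y in 𝓝[M₁.S] q, y ∈ M₂.S) → M₂.N q = M₁.N q ∨ M₂.N q = -M₁.N q)

/-- The side of a point is read off at a nearest point. -/
def S_SIDE : Prop := ∀ M : Surf, M.Mem → ∀ z x : E, z ∉ M.S → x ∈ M.S →
  (∀ y ∈ M.S, ‖z - x‖ ≤ ‖z - y‖) →
    (z ∈ M.W' ↔ 0 < ⟪z - x, M.N x⟫) ∧ (z ∈ M.W ↔ ⟪z - x, M.N x⟫ < 0)

/-- Density at most one forces flatness. -/
def S_RIG1 : Prop := ∀ M : Surf, M.Mem → (∀ p r, 0 < r → M.Θ p r ≤ 1) → M.Flat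

/-- A disconnected member is a pair of parallel planes. -/
def S_TWO : Prop := ∀ M : Surf, M.Mem → ¬ IsPreconnected M.S →
  ∃ (ν : E) (a b : ℝ), ‖ν‖ = 1 ∧ a < b ∧ M.S = {x | ⟪x, ν⟫ = a} ∪ {x | ⟪x, ν⟫ = b} ∧
    ∀ x ∈ M.S, M.N x = ν ∨ M.N x = -ν

/-- A closed embedded surface has two sides. -/
def S_SIDES : Prop := ∀ S : Set E, IsClosed S → (∀ p ∈ S, ∃ c : Chart, c.X 0 = p ∧ c.Emb S) →
  ∃ (N : E → E) (W W' : Set E), IsOpen W ∧ IsOpen W' ∧ univ = W ∪ W' ∪ S ∧ Disjoint W W' ∧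
    Disjoint W S ∧ Disjoint W' S ∧ Measurable N ∧ ContinuousOn N S ∧ (∀ x ∈ S, ‖N x‖ = 1) ∧
    (∀ x ∈ S, ∀ v : E, 0 < ⟪v, N x⟫ → ∀ᶠ t in 𝓝[>] (0 : ℝ), x + t • v ∈ W' ∧ x - t • v ∈ W) ∧
    ∀ c : Chart, c.Emb S → ∀ z ∈ ball (0 : ℂ) c.r,
      ⟪N (c.X z), c.Xu z⟫ = 0 ∧ ⟪N (c.X z), c.Xv z⟫ = 0

/-- Conformal charts of a minimal immersion. -/
def S_ISO : Prop := ∀ (M : Type u) [TopologicalSpace M] [ChartedSpace E2 M]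
  [IsManifold (𝓡 2) ∞ M] (f : M → E), ContMDiff (𝓡 2) (𝓡 3) ∞ f →
  (∀ p, Function.Injective (mfderiv (𝓡 2) (𝓡 3) f p)) → IsMinimal f →
  ∀ p, ∃ c : PChart f, c.ψ 0 = p

/-- The measure of the conformal charts is at most the area of the statement. -/
def S_AREALE : Prop := ∀ (M : Type u) [TopologicalSpace M] [SecondCountableTopology M]
  [ChartedSpace E2 M] [IsManifold (𝓡 2) ∞ M] [MeasurableSpace M] [BorelSpace M] (f : M → E),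
  ContMDiff (𝓡 2) (𝓡 3) ∞ f → (∀ p, ∃ c : PChart f, c.ψ 0 = p) →
  ∀ m : Measure M, (∀ (c : PChart f) (A : Set ℂ), MeasurableSet A → A ⊆ ball 0 c.r →
    m (c.ψ '' A) = ∫⁻ z in A, ENNReal.ofReal (c.jac z)) →
  ∀ U : Set M, IsOpen U → m U ≤ area f U

/-- A measurable unit normal of an abstract conformal surface. -/
def S_NRM : Prop := ∀ (Ω : Type u) [TopologicalSpace Ω] [SecondCountableTopology Ω]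
  [MeasurableSpace Ω] [BorelSpace Ω] (f : Ω → E), (∀ p, ∃ c : PChart f, c.ψ 0 = p) →
  ∃ n : Ω → E, Measurable n ∧ (∀ p, ‖n p‖ = 1) ∧ ∀ c : PChart f, ∀ z ∈ ball (0 : ℂ) c.r,
    ⟪n (c.ψ z), c.Xu z⟫ = 0 ∧ ⟪n (c.ψ z), c.Xv z⟫ = 0

/-- A double point forces the image into a plane. -/
def S_DOUBLE : Prop := ∀ (Ω : Type u) [TopologicalSpace Ω] [T2Space Ω]
  [SecondCountableTopology Ω] [ConnectedSpace Ω] [MeasurableSpace Ω] [BorelSpace Ω] (f : Ω → E)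
  (m : Measure Ω), IsProperMap f → (∀ p, ∃ c : PChart f, c.ψ 0 = p) →
  (∀ (c : PChart f) (A : Set ℂ), MeasurableSet A → A ⊆ ball 0 c.r →
    m (c.ψ '' A) = ∫⁻ z in A, ENNReal.ofReal (c.jac z)) →
  (∀ (p : E) (r : ℝ), 0 < r → m (f ⁻¹' ball p r) ≤ ENNReal.ofReal (2 * π * r ^ 2)) →
  ¬ Function.Injective f → ∃ q ν : E, ‖ν‖ = 1 ∧ ∀ p, ⟪f p - q, ν⟫ = 0

/-- A proper connected conformal surface in a plane is embedded. -/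
def S_COVER : Prop := ∀ (Ω : Type u) [TopologicalSpace Ω] [T2Space Ω] [ConnectedSpace Ω]
  (f : Ω → E), IsProperMap f → (∀ p, ∃ c : PChart f, c.ψ 0 = p) →
  ∀ q ν : E, ‖ν‖ = 1 → (∀ p, ⟪f p - q, ν⟫ = 0) → Function.Injective f

/-- From the immersion to a member (I8). -/
def S_EMB : Prop := ∀ (M : Type u) [TopologicalSpace M] [T2Space M] [SecondCountableTopology M]
  [ConnectedSpace M] [ChartedSpace E2 M] [IsManifold (𝓡 2) ∞ M] (f : M → E),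
  ContMDiff (𝓡 2) (𝓡 3) ∞ f → (∀ p, Function.Injective (mfderiv (𝓡 2) (𝓡 3) f p)) →
  IsMinimal f → IsProperMap f →
  (∀ (p : E) (R : ℝ), 0 < R → area f (f ⁻¹' ball p R) ≤ ENNReal.ofReal (2 * π * R ^ 2)) →
  Function.Injective f ∧ ∃ M' : Surf, M'.Mem ∧ M'.S = range f ∧ IsPreconnected M'.S ∧
    M'.S.Nonempty

end MW
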