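import Pool.Agent.P.MP_064970_gt.C.Lem

/-! Statements of section 4 (Case I). -/

open MeasureTheory Set Filter Topology Metric
open scoped RealInnerProductSpace ENNReal ComplexConjugate Real

noncomputable section

namespace MW.CI

/-! ### Pictures -/

/-- A picture with the pattern of the reference cross is a cross with close normals. -/
def C_ANG : Prop := ∀ (M : Surf) (β ω δ s : ℝ) (ν : Bool → E) (c : E), M.Mem → IsRef β ν →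
  0 < s → 0 < ω → 0 < δ → ω + δ ≤ β / 1000 → Near M ν ω c s →
  (∀ n : E, ‖n‖ = 1 → ¬ ∀ x ∈ ball c s, δ * s < |⟪x - c, n⟫| → x ∈ M.W') ∧
  (∀ n : E, ‖n‖ = 1 → ¬ ∀ x ∈ ball c s, δ * s < |⟪x - c, n⟫| → x ∈ M.W) ∧
  ∀ a b : E, M.Cross c s δ a b → ∃ ν' : Bool → E, (∀ i, ‖ν' i - ν i‖ ≤ 100 * (ω + δ)) ∧
    ∀ (p : E) (ρ δ' : ℝ), M.Cross p ρ δ' a b → M.Cross p ρ δ' (ν' false) (ν' true)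

/-- Planes that contain the surface up to `h s` have the normals of the cross picture. -/
def C_CMPN : Prop := ∀ (M : Surf) (β δ h s : ℝ) (ν ν' : Bool → E) (P : Pl) (c : E), M.Mem →
  IsRef β ν → 0 < s → 0 < δ → δ ≤ β / 100 → 0 ≤ h → h ≤ β / 100 →
  M.Cross c s δ (ν' false) (ν' true) → (∀ i, ‖ν' i - ν i‖ ≤ β / 100) → P.Close ν (β / 100) →
  (∀ i, |P.f i c| ≤ β / 100 * s) → (∀ x ∈ M.S ∩ ball c s, ∃ i, |P.f i x| ≤ h * s) →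
  ∀ i, ‖P.n i - ν' i‖ ≤ 200 * (δ + h) / β

/-- Good centres have pictures. -/
def C_PIC : Prop := ∀ β η : ℝ, 0 < β → 0 < η → η ≤ 1 → ∃ ω₀ Λ₀ : ℝ, 0 < ω₀ ∧ 1 ≤ Λ₀ ∧
  ∀ (M : Surf) (ν : Bool → E) (ω : ℝ) (c : E) (b R : ℝ), M.Mem → IsRef β ν → 0 < ω → ω ≤ ω₀ →
    GoodOn M ν ω c b R → Ctr M ν η c (Λ₀ * b) R

/-- Small excess fixes the normals. -/
def C_NRM : Prop := ∀ β : ℝ, 0 < β → ∃ C : ℝ, 0 < C ∧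
  ∀ (M : Surf) (ν : Bool → E) (η s m : ℝ) (c : E) (P : Pl), M.Mem → IsRef β ν → 0 < η →
    η ≤ β / 100 → 0 < s → Pic M ν η c s → P.Close ν (1 / 2) → Exc M β ν P c s m →
    (∀ (Q : Pl) (m' : ℝ), Q.Close ν (1 / 2) → Exc M β ν Q c s m' →
      ∀ i, ‖P.n i - Q.n i‖ ≤ C * (m + m') / s) ∧
    ∀ (ν' : Bool → E) (d : ℝ), 0 < d → d ≤ β / 100 → (∀ i, ‖ν' i - ν i‖ ≤ β / 100) →
      M.Cross c s d (ν' false) (ν' true) → ∀ i, ‖P.n i - ν' i‖ ≤ C * (m / s + d)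

/-- A cross picture has small excess. -/
def C_START : Prop := ∀ β : ℝ, 0 < β → ∃ C : ℝ, 0 < C ∧
  ∀ (M : Surf) (ν ν' : Bool → E) (d s : ℝ) (c : E), M.Mem → IsRef β ν → 0 < d → d ≤ β / 100 →
    0 < s → (∀ i, ‖ν' i - ν i‖ ≤ β / 100) → M.Cross c s d (ν' false) (ν' true) →
    Exc M β ν ⟨ν', fun i => ⟪c, ν' i⟫⟩ c s (C * d * s)

/-! ### C1: structure -/

/-- The sheets are Lipschitz graphs. -/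
def C_STA : Prop := ∀ (M : Surf) (β η b₀ R b r : ℝ) (ν : Bool → E) (p : E) (Z : Finset E),
  M.Mem → IsRef β ν → 0 < η → η ≤ β ^ 2 / 1000 → b₀ ≤ b → 1000 * b ≤ β * r → 5 * r ≤ R →
  Net M ν η b₀ R b p r Z → ∀ G : Bool → Set E, G = sheet M β ν Z (100 / β * b) p r →
  (∀ i, ∃ U, IsOpen U ∧ G i = M.S ∩ U) ∧ (∀ i, ∀ x ∈ G i, wedge (M.N x) (ν i) ≤ η) ∧
  (∀ i, ∀ x ∈ G i, ∀ y ∈ G i, |⟪x - y, ν i⟫| ≤ 20 * η / β * ‖x - y‖) ∧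
  (∀ i, ∀ x ∈ G i, |⟪x - p, ν i⟫| ≤ η * r) ∧
  ∀ x ∈ M.S ∩ ball p r, x ∉ G false → x ∉ G true → ∃ c ∈ Z, ‖x - c‖ ≤ 100 / β * b

/-- The sheets cover the planes. -/
def C_STB : Prop := ∀ (M : Surf) (β η b₀ R b r : ℝ) (ν : Bool → E) (p : E) (Z : Finset E),
  M.Mem → IsRef β ν → 0 < η → η ≤ β ^ 2 / 1000 → b₀ ≤ b → 1000 * b ≤ β * r → 5 * r ≤ R →
  Net M ν η b₀ R b p r Z → ∀ (i : Bool) (A : E ≃ₗᵢ[ℝ] E), ‖A e3 - ν i‖ ≤ 20 * η / β →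
  ∀ y ∈ ball (prA A p) (r / 2), y ∉ prA A '' sheet M β ν Z (100 / β * b) p r i →
    ∃ c ∈ Z, ‖y - prA A c‖ ≤ 100 / β * b

/-- C1. -/
def C_STRUCT : Prop := ∀ (M : Surf) (β η b₀ R b r : ℝ) (ν : Bool → E) (p : E), M.Mem →
  IsRef β ν → 0 < η → η ≤ β ^ 2 / 1000 → b₀ ≤ b → 1000 * b ≤ β * r → Core M ν η b₀ R p r →
  ∃ G : Bool → Set E, Sheets M ν (20 * η / β) (200000 / β ^ 2 * b * r) p r G ∧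
    Loc M ν (20 * η / β) {c | Ctr M ν η c b₀ R ∧ ‖c - p‖ ≤ 2 * r} b (100 / β * b) p r G

/-! ### C2 to C5: the decay lemma -/

/-- The area formula on an injective sheet. -/
def C_ARG : Prop := ∀ (M : Surf) (A : E ≃ₗᵢ[ℝ] E) (G : Set E), MeasurableSet G → G ⊆ M.S →
  InjOn (prA A) G → MeasurableSet (prA A '' G) ∧ volume (prA A '' G) ≤ M.μ G ∧
  ∀ f : ℂ → ℝ, Measurable f →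
    (IntegrableOn f (prA A '' G) ↔ IntegrableOn (fun x => f (prA A x) * |⟪M.N x, A e3⟫|) G M.μ) ∧
    ∫ x in G, f (prA A x) * |⟪M.N x, A e3⟫| ∂M.μ = ∫ y in prA A '' G, f y

/-- The gradient of the graph function on a sheet. -/
def C_GRAPH : Prop := ∀ (M : Surf) (A : E ≃ₗᵢ[ℝ] E) (c : ℝ) (G : Set E) (v : ℂ → ℝ),
  (∃ U, IsOpen U ∧ G = M.S ∩ U) → (∀ x ∈ G, ⟪M.N x, A e3⟫ ≠ 0) →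
  (∀ x ∈ G, v (prA A x) = ⟪x, A e3⟫ - c) →
  IsOpen (prA A '' G) ∧
  (∀ x ∈ G, HasGradientAt v ((-(⟪M.N x, A e3⟫)⁻¹) • prA A (M.N x)) (prA A x)) ∧
  ContinuousOn (fderiv ℝ v) (prA A '' G)

/-- Lipschitz extension of the sheets. -/
def C_EXT : Prop := ∀ (M : Surf) (β σ κ r : ℝ) (ν : Bool → E) (p : E) (G : Bool → Set E) (P : Pl)
  (A : Bool → E ≃ₗᵢ[ℝ] E), M.Mem → IsRef β ν → 0 < σ → σ ≤ β / 8 → 0 < r → 0 ≤ κ → κ ≤ r ^ 2 / 4 →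
  Sheets M ν σ κ p r G → P.Close ν σ → (∀ i, A i e3 = P.n i) →
  ∃ v : Bool → ℂ → ℝ,
    TwoG M P A G v (4 * σ) (4 * σ * r + 2 * (aex M β ν P p r / r ^ 2)) κ p (r / 2)

/-- First variation on one sheet. -/
def C_SHEET : Prop := ∃ C : ℝ, 0 < C ∧ ∀ (M : Surf) (A : E ≃ₗᵢ[ℝ] E) (c : ℝ) (G : Set E)
  (v : ℂ → ℝ) (σ h κ : ℝ) (p : E) (ρ : ℝ) (ζ : E → ℝ) (L : ℝ) (a : E), M.Mem →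
  OneG M A c G v σ h κ p ρ → σ ≤ 1 / 2 → 0 ≤ κ → ContDiff ℝ 1 ζ → tsupport ζ ⊆ ball p ρ →
  (∀ x, ‖fderiv ℝ ζ x‖ ≤ L) → ‖a‖ = 1 →
  |(∫ x in G, (fderiv ℝ ζ x a - ⟪M.N x, a⟫ * fderiv ℝ ζ x (M.N x)) ∂M.μ)
      - ⟪a, A e3⟫ * mainI A c G v ζ|
    ≤ C * ((∫ x in G, wedge (M.N x) (A e3) ^ 2 * ‖fderiv ℝ ζ x‖ ∂M.μ) + κ * L)

/-- C2, the weak equation. -/
def C_WE : Prop := ∃ C : ℝ, 0 < C ∧ ∀ (M : Surf) (P : Pl) (A : Bool → E ≃ₗᵢ[ℝ] E)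
  (G : Bool → Set E) (v : Bool → ℂ → ℝ) (β σ h κ : ℝ) (p : E) (ρ : ℝ) (ζ : E → ℝ) (L : ℝ),
  M.Mem → TwoG M P A G v σ h κ p ρ → 0 < β → β ≤ wedge (P.n false) (P.n true) → σ ≤ 1 / 2 →
  0 ≤ κ → ContDiff ℝ 1 ζ → tsupport ζ ⊆ ball p ρ → (∀ x, ‖fderiv ℝ ζ x‖ ≤ L) → ∀ i,
  β * |mainI (A i) (P.c i) (G i) (v i) ζ|
    ≤ C * ((∑ j, ∫ x in G j, wedge (M.N x) (P.n j) ^ 2 * ‖fderiv ℝ ζ x‖ ∂M.μ) + κ * L)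

/-- The weak equation for test functions on the plane. -/
def C_WEP : Prop := ∃ C : ℝ, 0 < C ∧ ∀ (M : Surf) (P : Pl) (A : Bool → E ≃ₗᵢ[ℝ] E)
  (G : Bool → Set E) (v : Bool → ℂ → ℝ) (β σ h κ : ℝ) (p : E) (ρ : ℝ), M.Mem →
  TwoG M P A G v σ h κ p ρ → 0 < β → β ≤ wedge (P.n false) (P.n true) → σ ≤ 1 / 2 → 0 ≤ κ →
  0 < ρ → 8 * h ≤ ρ → ∀ (i : Bool) (z : ℂ → ℝ) (L : ℝ), ContDiff ℝ 1 z →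
  tsupport z ⊆ ball (prA (A i) p) (ρ / 2) → (∀ y, ‖fderiv ℝ z y‖ ≤ L) →
  β * |∫ y, fderiv ℝ z y (gradient (v i) y)|
    ≤ C * ((∑ j, ∫ x in G j ∩ ball p ρ, wedge (M.N x) (P.n j) ^ 2 ∂M.μ) + κ) * L

/-- Smooth approximation of a bounded Lipschitz function. -/
def C_APPROX : Prop := ∀ (v : ℂ → ℝ) (σ h : ℝ), (∀ y z, |v y - v z| ≤ σ * ‖y - z‖) →
  (∀ y, |v y| ≤ h) → ∃ w : ℕ → ℂ → ℝ,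
    (∀ k, ContDiff ℝ 1 (w k) ∧ ∀ y, |w k y| ≤ h ∧ ‖fderiv ℝ (w k) y‖ ≤ σ) ∧
    (∀ y, Tendsto (fun k => w k y) atTop (𝓝 (v y))) ∧
    ∀ D : Set ℂ, IsOpen D → DifferentiableOn ℝ v D → ContinuousOn (fderiv ℝ v) D →
      ∀ y ∈ D, Tendsto (fun k => fderiv ℝ (w k) y) atTop (𝓝 (fderiv ℝ v y))

/-- C4, the Caccioppoli inequality. -/
def C_CACC : Prop := ∃ C c₀ : ℝ, 0 < C ∧ 0 < c₀ ∧ ∀ (M : Surf) (P : Pl) (A : Bool → E ≃ₗᵢ[ℝ] E)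
  (G : Bool → Set E) (v : Bool → ℂ → ℝ) (β σ h κ : ℝ) (p : E) (ρ : ℝ), M.Mem →
  TwoG M P A G v σ h κ p ρ → 0 < β → β ≤ wedge (P.n false) (P.n true) → σ ≤ c₀ * β → 0 ≤ κ →
  0 < ρ → h ≤ ρ →
  β * ∑ j, ∫ x in G j ∩ ball p (ρ / 4), wedge (M.N x) (P.n j) ^ 2 ∂M.μ
    ≤ C * (h / ρ ^ 2 * (∑ j, ∫ x in G j ∩ ball p ρ, |P.f j x| ∂M.μ)
      + h / ρ * (∑ j, ∫ x in G j ∩ ball p ρ, wedge (M.N x) (P.n j) ^ 2 ∂M.μ) + κ)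

/-- The kernel that compares two mollifications. -/
def C_KER : Prop := ∃ C : ℝ, 0 < C ∧ ∀ s : ℝ, 0 < s → s ≤ 1 → ∃ k : ℂ → ℝ, ContDiff ℝ 1 k ∧
  (∀ y, 1 ≤ ‖y‖ → k y = 0) ∧ ∫ y, ‖fderiv ℝ k y‖ ≤ C ∧
  ∀ (v : ℂ → ℝ) (σ : ℝ), (∀ y z, |v y - v z| ≤ σ * ‖y - z‖) → ∀ x : ℂ,
    ∫ y, fderiv ℝ k (y - x) (gradient v y)
      = (∫ y, lam (‖y - x‖ ^ 2) * v y) - (∫ y, lam (‖y - x‖ ^ 2 / s ^ 2) * v y) / s ^ 2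

/-- C3 at unit scale. -/
def C_MOLA : Prop := ∃ C : ℝ, 0 < C ∧ ∀ (v : ℂ → ℝ) (σ ε : ℝ),
  (∀ y z, |v y - v z| ≤ σ * ‖y - z‖) → 0 ≤ ε →
  (∀ (z : ℂ → ℝ) (L : ℝ), ContDiff ℝ 1 z → tsupport z ⊆ ball 0 4 → (∀ y, ‖fderiv ℝ z y‖ ≤ L) →
    |∫ y, fderiv ℝ z y (gradient v y)| ≤ ε * L) →
  ∃ (l₀ : ℝ) (g : ℂ), |l₀| + ‖g‖ ≤ C * ∫ y in ball 0 4, |v y| ∧
    ∀ t : ℝ, 0 < t → t ≤ 1 →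
      ∫ y in ball 0 t, |v y - (l₀ + ⟪g, y⟫)| ≤ C * t ^ 4 * (∫ y in ball 0 4, |v y|) + C * ε

/-- C3. -/
def C_MOLL : Prop := ∃ C : ℝ, 0 < C ∧ ∀ (v : ℂ → ℝ) (σ ε ρ : ℝ) (y₀ : ℂ),
  (∀ y z, |v y - v z| ≤ σ * ‖y - z‖) → 0 ≤ ε → 0 < ρ →
  (∀ (z : ℂ → ℝ) (L : ℝ), ContDiff ℝ 1 z → tsupport z ⊆ ball y₀ ρ → (∀ y, ‖fderiv ℝ z y‖ ≤ L) →
    |∫ y, fderiv ℝ z y (gradient v y)| ≤ ε * L) →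
  ∃ (l₀ : ℝ) (g : ℂ), |l₀| * ρ ^ 2 + ‖g‖ * ρ ^ 3 ≤ C * ∫ y in ball y₀ ρ, |v y| ∧
    ∀ t : ℝ, 0 < t → t ≤ 1 / 4 →
      ∫ y in ball y₀ (t * ρ), |v y - (l₀ + ⟪g, y - y₀⟫)|
        ≤ C * t ^ 4 * (∫ y in ball y₀ ρ, |v y|) + C * ε * ρ

/-- The new planes and their height excess. -/
def C_LLA : Prop := ∀ β : ℝ, 0 < β → ∃ C : ℝ, 1 ≤ C ∧
  ∀ (M : Surf) (ν : Bool → E) (σ κ r : ℝ) (p : E) (G : Bool → Set E) (P : Pl), M.Mem →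
    IsRef β ν → 0 < σ → σ ≤ β / 1000 → 0 < r → 0 ≤ κ → κ ≤ r ^ 2 / 4 → Sheets M ν σ κ p r G →
    P.Close ν σ → aex M β ν P p r ≤ r ^ 3 / 1000 →
    (∀ i, |P.f i p| ≤ r) ∧ ∃ Q : Pl, (∀ i, ‖Q.n i‖ = 1 ∧
      r * ‖Q.n i - P.n i‖ + |Q.f i p - P.f i p| ≤ C * (aex M β ν P p r / r ^ 2 + κ / r)) ∧
      ∀ t : ℝ, 0 < t → t ≤ 1 / 16 → ∑ i, ∫ x in G i ∩ ball p (t * r), |Q.f i x| ∂M.μ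
        ≤ C * (t ^ 4 * aex M β ν P p r + (tex M β ν P p r + κ) * r)

/-- C5, the decay lemma. -/
def C_LL : Prop := ∀ β : ℝ, 0 < β → ∃ θ K₀ σ₀ ε₀ C : ℝ, 0 < θ ∧ θ ≤ 1 / 2000 ∧ 1 ≤ K₀ ∧ 0 < σ₀ ∧
  0 < ε₀ ∧ 1 ≤ C ∧ ∀ (M : Surf) (ν : Bool → E) (σ κ r : ℝ) (p : E) (G : Bool → Set E) (P : Pl),
    M.Mem → IsRef β ν → 0 < σ → σ ≤ σ₀ → 0 < r → 0 ≤ κ → Sheets M ν σ κ p r G →
    P.Close ν (σ / 2) → psi M β ν K₀ P p r ≤ ε₀ * σ * r → κ ≤ ε₀ * σ * r ^ 2 →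
    (∀ i, |P.f i p| ≤ r) ∧ ∃ Q : Pl, (∀ i, ‖Q.n i‖ = 1 ∧
      r * ‖Q.n i - P.n i‖ + |Q.f i p - P.f i p| ≤ C * (psi M β ν K₀ P p r + κ / r)) ∧
      psi M β ν K₀ Q p (θ * r) ≤ θ / 2 * psi M β ν K₀ P p r + C * (κ / r)

/-! ### C6: the tower of planes at a centre -/

/-- Iteration of the decay lemma at a centre. -/
def C_ITER : Prop := ∀ β : ℝ, 0 < β → ∃ η₀ : ℝ, 0 < η₀ ∧ ∀ η : ℝ, 0 < η → η ≤ η₀ →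
  ∃ Λ C : ℝ, 1 ≤ Λ ∧ 1 ≤ C ∧ ∀ (M : Surf) (ν : Bool → E) (b R r m : ℝ) (c : E) (P : Pl), M.Mem →
    IsRef β ν → Core M ν η b R c r → P.Close ν η → Exc M β ν P c r m → b ≤ m →
    ∃ Q : ℝ → Pl, ∀ s : ℝ, Λ * m ≤ s → s ≤ r → Exc M β ν (Q s) c s (C * m) ∧ ∀ i,
      ‖(Q s).n i‖ = 1 ∧ ‖(Q s).n i - P.n i‖ ≤ C * m / s ∧
      |(Q s).f i c - P.f i c| ≤ C * m * (r / s) ^ (1 / 4 : ℝ) ∧ |(Q s).f i c| ≤ C * s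

/-- C6, pointwise bounds. -/
def C_PW : Prop := ∀ β : ℝ, 0 < β → ∃ η₀ : ℝ, 0 < η₀ ∧ ∀ η : ℝ, 0 < η → η ≤ η₀ →
  ∃ Λ C : ℝ, 1 ≤ Λ ∧ 1 ≤ C ∧ ∀ (M : Surf) (ν : Bool → E) (b R r m : ℝ) (c : E) (P : Pl), M.Mem →
    IsRef β ν → Core M ν η b R c r → P.Close ν η → Exc M β ν P c r m → b ≤ m → Λ * m ≤ r →
    (∀ i, |P.f i c| ≤ hh C m r) ∧
    ∀ i, ∀ x ∈ M.S ∩ typ M β ν i, Λ * m ≤ ‖x - c‖ → ‖x - c‖ ≤ r / 2 →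
      |x 2 - c 2| ≤ ‖x - c‖ / 2 → wedge (M.N x) (P.n i) ≤ C * m / ‖x - c‖ ∧
        |P.f i x| ≤ C * m * (r / ‖x - c‖) ^ (1 / 4 : ℝ)

/-- The data (bc1). -/
def C_BCD : Prop := ∀ β : ℝ, 0 < β → ∃ η₀ : ℝ, 0 < η₀ ∧ ∀ η : ℝ, 0 < η → η ≤ η₀ →
  ∃ Λ K : ℝ, 1 ≤ Λ ∧ 1 ≤ K ∧ ∀ (M : Surf) (ν : Bool → E) (b R r m : ℝ) (c : E) (P : Pl), M.Mem →
    IsRef β ν → Core M ν η b R c r → P.Close ν η → Exc M β ν P c r m → b ≤ m → Λ * m ≤ r →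
    Dat M ν η K m c (r / 8) P

/-! ### C7: the density along the axis -/

/-- First variation along the axis and radially. -/
def C_DLA : Prop := ∃ C : ℝ, 0 < C ∧ ∀ (M : Surf) (A : Bool → E ≃ₗᵢ[ℝ] E) (G : Bool → Set E)
  (τ h κ δ : ℝ), M.Mem → AxG M 0 e3 1 A G τ h κ δ → ∀ (g gq gt : ℝ × ℝ → ℝ) (L : ℝ),
  Tf g gq gt L →
  |(∫ x, gt (qt x) ∂M.μ) - ∫ x, gt (qt x) * M.N x 2 ^ 2 ∂M.μ| ≤ C * L * (τ * h + h ^ 2 + κ * δ) ∧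
  |(∫ x, (g (qt x) + 2 * ‖pr x‖ ^ 2 * gq (qt x)) ∂M.μ) + ∫ x, g (qt x) * M.N x 2 ^ 2 ∂M.μ|
    ≤ C * L * (τ * h + h ^ 2 + κ * δ)

/-- Comparison with the planes for test functions that vanish on the axis. -/
def C_DLC : Prop := ∃ C : ℝ, 0 < C ∧ ∀ (M : Surf) (A : Bool → E ≃ₗᵢ[ℝ] E) (G : Bool → Set E)
  (τ h κ δ : ℝ), M.Mem → AxG M 0 e3 1 A G τ h κ δ → ∀ (φ : ℝ × ℝ → ℝ) (L : ℝ), Continuous φ →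
  (∀ z : ℝ × ℝ, 0 ≤ z.1 → |φ z| ≤ L) → LipQ φ L →
  (∀ z : ℝ × ℝ, 0 ≤ z.1 → 3 / 4 ≤ z.1 + z.2 ^ 2 → φ z = 0) →
  |2 * (∫ y : ℂ, y.re ^ 2 * φ (qy y)) - ∫ x, ‖pr x‖ ^ 2 * φ (qt x) ∂M.μ| ≤ C * L * (h ^ 2 + κ * δ)

/-- The same two identities on a plane. -/
def C_DLI : Prop := ∀ (g gq gt : ℝ × ℝ → ℝ) (L : ℝ), Tf g gq gt L →
  ∫ y : ℂ, gt (qy y) = 0 ∧ ∫ y : ℂ, (g (qy y) + 2 * y.re ^ 2 * gq (qy y)) = 0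

/-- The area defect is the vertical tilt. -/
def C_DLN : Prop := ∃ C : ℝ, 0 < C ∧ ∀ (M : Surf) (A : Bool → E ≃ₗᵢ[ℝ] E) (G : Bool → Set E)
  (τ h κ δ : ℝ), M.Mem → AxG M 0 e3 1 A G τ h κ δ → ∀ (g gq gt : ℝ × ℝ → ℝ) (L : ℝ),
  Tf g gq gt L → LipQ gq L →
  |2 * (∫ y : ℂ, g (qy y)) - (∫ x, g (qt x) ∂M.μ) - ∫ x, g (qt x) * M.N x 2 ^ 2 ∂M.μ|
    ≤ C * L * (τ * h + h ^ 2 + κ * δ)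

/-- The vertical tilt does not depend on the height. -/
def C_DLT : Prop := ∃ C : ℝ, 0 < C ∧ ∀ (M : Surf) (A : Bool → E ≃ₗᵢ[ℝ] E) (G : Bool → Set E)
  (τ h κ δ : ℝ), M.Mem → AxG M 0 e3 1 A G τ h κ δ → ∀ (γ γ' : ℝ → ℝ) (L : ℝ),
  (∀ t, HasDerivAt γ (γ' t) t) → Continuous γ' → (∀ t, |γ t| ≤ L ∧ |γ' t| ≤ L) →
  (∀ t, 1 / 2 ≤ |t| → γ t = 0) → ∫ t, γ t = 0 →
  |∫ x, γ (x 2) * (π / 4 * lam (4 * ‖pr x‖ ^ 2)) * M.N x 2 ^ 2 ∂M.μ|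
    ≤ C * L * (τ * h + h ^ 2 + κ * δ)

/-- Moving a centre to the axis. -/
def C_DLS : Prop := ∃ C : ℝ, 0 < C ∧ ∀ (M : Surf) (A : Bool → E ≃ₗᵢ[ℝ] E) (G : Bool → Set E)
  (τ h κ δ ζ r : ℝ) (c : E), M.Mem → AxG M 0 e3 1 A G τ h κ δ → ‖pr c‖ ≤ ζ → ζ ≤ 1 / 4 →
  |c 2| ≤ 1 / 4 → 0 < r → r ≤ 1 / 4 →
  |M.Θ c r - M.Θ (pt 0 (c 2)) r| ≤ C / r ^ 4 * (ζ * (h + τ + ζ + κ))

/-- The defect is almost constant on the axis, at unit scale. -/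
def C_DLZ : Prop := ∀ c₀ : ℝ, 0 < c₀ → ∃ C : ℝ, 0 < C ∧ ∀ (M : Surf) (A : Bool → E ≃ₗᵢ[ℝ] E)
  (G : Bool → Set E) (τ h κ δ a₁ a₂ r₁ r₂ : ℝ), M.Mem → AxG M 0 e3 1 A G τ h κ δ →
  |a₁| ≤ 1 / 4 → |a₂| ≤ 1 / 4 → c₀ ≤ r₁ → r₁ ≤ 1 / 4 → c₀ ≤ r₂ → r₂ ≤ 1 / 4 →
  |r₁ * (2 - M.Θ (pt 0 a₁) r₁) - r₂ * (2 - M.Θ (pt 0 a₂) r₂)| ≤ C * (τ * h + h ^ 2 + κ * δ)

/-- The same in general position, for centres near the axis. -/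
def C_DLX : Prop := ∀ c₀ : ℝ, 0 < c₀ → ∃ C : ℝ, 0 < C ∧ ∀ (M : Surf) (o e : E) (ρ : ℝ)
  (A : Bool → E ≃ₗᵢ[ℝ] E) (G : Bool → Set E) (τ h κ δ ζ r₁ r₂ : ℝ) (c₁ c₂ : E), M.Mem → 0 < ρ →
  AxG M o e ρ A G τ h κ δ → ζ ≤ 1 / 4 → dax o e c₁ ≤ ζ * ρ → dax o e c₂ ≤ ζ * ρ →
  |⟪c₁ - o, e⟫| ≤ ρ / 4 → |⟪c₂ - o, e⟫| ≤ ρ / 4 → c₀ * ρ ≤ r₁ → r₁ ≤ ρ / 4 → c₀ * ρ ≤ r₂ →
  r₂ ≤ ρ / 4 →
  |r₁ * (2 - M.Θ c₁ r₁) - r₂ * (2 - M.Θ c₂ r₂)|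
    ≤ C * ρ * (τ * h + h ^ 2 + κ * δ + ζ * (h + τ + ζ + κ))

/-- The sheets of level `t^8 r` when the excess is `t^12 r`. -/
def C_DLG : Prop := ∀ β : ℝ, 0 < β → ∃ η₀ : ℝ, 0 < η₀ ∧ ∀ η : ℝ, 0 < η → η ≤ η₀ →
  ∃ t₀ C : ℝ, 0 < t₀ ∧ 0 < C ∧ ∀ (M : Surf) (ν : Bool → E) (b R r t : ℝ) (p : E) (P : Pl), M.Mem →
    IsRef β ν → 0 < r → 0 < t → t ≤ t₀ → Core M ν η b R p r → P.Close ν η →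
    Exc M β ν P p r (t ^ 12 * r) → b ≤ t ^ 12 * r →
    ∃ (o e : E) (A : Bool → E ≃ₗᵢ[ℝ] E) (G : Bool → Set E),
      AxG M o e (r / 40) A G (C * t ^ 4) (C * t ^ 10) (C * t ^ 8) (C * t ^ 8) ∧
      ∀ c : E, Ctr M ν η c b R → ‖c - p‖ ≤ r / 300 →
        dax o e c ≤ C * t ^ 9 * (r / 40) ∧ |⟪c - o, e⟫| ≤ r / 40 / 4

/-- C7. -/
def C_DL : Prop := ∀ β : ℝ, 0 < β → ∃ η₀ : ℝ, 0 < η₀ ∧ ∀ η : ℝ, 0 < η → η ≤ η₀ →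
  ∀ c₀ : ℝ, 0 < c₀ → ∃ ε C : ℝ, 0 < ε ∧ 0 < C ∧ ∀ (M : Surf) (ν : Bool → E) (b R r m r₁ r₂ : ℝ)
    (p c₁ c₂ : E) (P : Pl), M.Mem → IsRef β ν → Core M ν η b R p r → P.Close ν η →
    Exc M β ν P p r m → b ≤ m → m ≤ ε * r → Ctr M ν η c₁ b R → Ctr M ν η c₂ b R →
    ‖c₁ - p‖ ≤ r / 300 → ‖c₂ - p‖ ≤ r / 300 → c₀ * r ≤ r₁ → r₁ ≤ r / 200 → c₀ * r ≤ r₂ →
    r₂ ≤ r / 200 →
    |r₁ * (2 - M.Θ c₁ r₁) - r₂ * (2 - M.Θ c₂ r₂)| ≤ C * m * (m / r) ^ (1 / 12 : ℝ)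

/-- C7 along the scales at one centre. -/
def C_CHAIN : Prop := ∀ β : ℝ, 0 < β → ∃ η₀ : ℝ, 0 < η₀ ∧ ∀ η : ℝ, 0 < η → η ≤ η₀ →
  ∃ Λ C : ℝ, 1 ≤ Λ ∧ 0 < C ∧ ∀ (M : Surf) (ν : Bool → E) (b R r m s : ℝ) (c : E) (P : Pl),
    M.Mem → IsRef β ν → Core M ν η b R c r → P.Close ν (η / 2) → Exc M β ν P c r m → b ≤ m →
    Λ * m ≤ s → s ≤ r / 200 →
    |r / 200 * (2 - M.Θ c (r / 200)) - s * (2 - M.Θ c s)| ≤ C * m * (m / s) ^ (1 / 12 : ℝ)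

/-! ### C8: bounded data give a Scherk surface -/

/-- The fine pattern. -/
def C_PTN : Prop := ∀ (M : Surf) (β η ω K u r : ℝ) (ν : Bool → E) (c : E) (P : Pl), M.Mem →
  IsRef β ν → ω ≤ β / 10 → P.Close ν (β / 10) → 1 ≤ K → 0 < u → u ≤ r → hh K u r ≤ β / 20 * r →
  Dat M ν η K u c r P → Near M ν ω c r → Pat M P c r (hh K u r)

/-- The pattern at points close to the centre. -/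
def C_UP : Prop := ∀ β ω K Λ₃ : ℝ, 0 < ω → ω ≤ β / 10 → 1 ≤ K → 0 ≤ Λ₃ → ∃ Λ₄ : ℝ, 1 ≤ Λ₄ ∧
  ∀ (M : Surf) (ν : Bool → E) (η u a R r : ℝ) (c p : E) (Pf : ℝ → Pl), M.Mem → IsRef β ν → 0 < u →
    DatOn M ν η ω K u c a R Pf → ‖p - c‖ ≤ Λ₃ * u → Λ₄ * u ≤ r → a ≤ 2 * r → 2 * r ≤ R →
    Near M ν ω p r

/-- The limit normals. -/
def C_BCL : Prop := ∀ (M : Surf) (β η ω K a : ℝ) (ν : Bool → E) (Pf : ℝ → Pl), M.Mem →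
  IsRef β ν → 0 < ω → ω ≤ β / 10 → 1 ≤ K → 0 < a → (∀ R, DatOn M ν η ω K 1 0 a R Pf) →
  ∃ (n : Bool → E) (K' a' : ℝ), Far M n (β / 2) (η + ω) K' a'

/-- The double cone about the diagonal. -/
def C_BCX : Prop := ∀ (M : Surf) (n : Bool → E) (β η K a : ℝ), Far M n β η K a →
  M.CXg (‖n false + n true‖⁻¹ • (n false + n true))

/-- The midpoints of the chords. -/
def C_BCA : Prop := ∀ (M : Surf) (n : Bool → E) (β η K a l : ℝ), M.Mem → Far M n β η K a →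
  η ≤ β / 4 → 0 < l → n false + n true = l • e3 → M.CXg e3 →
  ∃ L r₂ : ℝ, 1 ≤ L ∧ 1 ≤ r₂ ∧ ∀ r : ℝ, r₂ ≤ r → ∃ P : Pl, P.n = n ∧ Dat M n η K 1 0 (L * r) P ∧
    ∀ x ∈ M.S, ‖pr x‖ ≤ r → x ∈ ball (0 : E) (L * r) ∧ (0 < M.N x 2 →
      (|P.f true x - P.f false x| ≤ 4 * hh K 1 (L * r) →
        |M.alpha e3 x - (P.c false + P.c true) / l| ≤ 10 / β * hh K 1 (L * r)) ∧
      (4 * hh K 1 (L * r) < |P.f true x - P.f false x| →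
        |M.alpha e3 x - (P.c false + P.c true) / l|
          ≤ 4 * K / β * (L * r / |P.f true x - P.f false x|) ^ (1 / 4 : ℝ)))

/-- The mass near the axis. -/
def C_BCM : Prop := ∀ β : ℝ, 0 < β → ∃ C : ℝ, 0 < C ∧ ∀ (M : Surf) (P : Pl) (η K R : ℝ), M.Mem →
  (∀ i, ‖P.n i‖ = 1) → ⟪P.n false, P.n true⟫ ^ 2 ≤ 1 - β ^ 2 → 1 ≤ K → 1 ≤ R →
  hh K 1 R ≤ β / 4 * R → Dat M P.n η K 1 0 R P →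
  M.μ.real (ball 0 R ∩ {x | |P.f true x - P.f false x| ≤ 4 * hh K 1 R}) ≤ C * hh K 1 R * R ∧
  IntegrableOn (fun x => (R / |P.f true x - P.f false x|) ^ (1 / 2 : ℝ))
    (ball 0 R ∩ {x | 4 * hh K 1 R < |P.f true x - P.f false x|}) M.μ ∧
  ∫ x in ball 0 R ∩ {x | 4 * hh K 1 R < |P.f true x - P.f false x|},
    (R / |P.f true x - P.f false x|) ^ (1 / 2 : ℝ) ∂M.μ ≤ C * R ^ 2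

/-- The midpoints are close to a constant in the mean. -/
def C_BCE : Prop := ∀ (M : Surf) (n : Bool → E) (β η K a l : ℝ), M.Mem → Far M n β η K a →
  η ≤ β / 4 → 0 < l → n false + n true = l • e3 → M.CXg e3 →
  ∃ C r₂ : ℝ, ∀ r : ℝ, r₂ ≤ r → ∃ c : ℝ, ∀ T : ℝ,
    IntegrableOn (fun x => (M.alpha e3 x - c) ^ 2 * M.N x 2) (cyl (closedBall 0 r) T ∩ M.top e3) M.μ ∧
    ∫ x in cyl (closedBall 0 r) T ∩ M.top e3, (M.alpha e3 x - c) ^ 2 * M.N x 2 ∂M.μ ≤ C * r ^ 2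

/-- The chord energy vanishes. -/
def C_BCZ : Prop := ∀ M : Surf, M.Mem → M.CXg e3 →
  (∃ C r₂ : ℝ, ∀ r : ℝ, r₂ ≤ r → ∃ c : ℝ, ∀ T : ℝ,
    IntegrableOn (fun x => (M.alpha e3 x - c) ^ 2 * M.N x 2) (cyl (closedBall 0 r) T ∩ M.top e3) M.μ ∧
    ∫ x in cyl (closedBall 0 r) T ∩ M.top e3, (M.alpha e3 x - c) ^ 2 * M.N x 2 ∂M.μ ≤ C * r ^ 2) →
  ∀ R : ℝ, M.E0 e3 (ball 0 R) = 0

/-- The energy density vanishes in the direction of the diagonal. -/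
def C_BCS : Prop := ∀ (M : Surf) (n : Bool → E) (β η K a : ℝ), M.Mem → Far M n β η K a →
  η ≤ β / 4 → M.EdZero (‖n false + n true‖⁻¹ • (n false + n true))

/-- Two mirror planes. -/
def C_BCF : Prop := ∀ (M : Surf) (n : Bool → E) (β η K a : ℝ), M.Mem → Far M n β η K a →
  η ≤ β / 4 → IsScherk M.S

/-! ### C9: the lower bound for the defect -/

/-- The density defect of a Scherk surface. -/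
def C_SCH : Prop := ∀ M : Surf, M.Mem → IsScherk M.S →
  ∃ c s₀ : ℝ, 0 < c ∧ ∀ s : ℝ, s₀ ≤ s → c ≤ s * (2 - M.Θ 0 s)

/-- A bad point gives a good centre of small level. -/
def C_LBA : Prop := ∀ (β η ω K a Λ₄ : ℝ) (U : Ultrafilter ℕ) (Mk : ℕ → Surf) (νk : ℕ → Bool → E)
  (Rk : ℕ → ℝ) (Pk : ℕ → ℝ → Pl), 0 < ω → ω ≤ β / 100000 → 1 ≤ K → 1 ≤ a →
  (∀ k, (Mk k).Mem ∧ IsRef β (νk k) ∧ 3 / 2 ≤ (Mk k).Θ 0 1 ∧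
    DatOn (Mk k) (νk k) η ω K 1 0 a (Rk k) (Pk k)) → Tendsto Rk U atTop →
  ∀ x₀ : E, x₀ ∉ limO U Mk → ∀ᶠ k in (U : Filter ℕ),
    ∃ p : E, p 2 = 0 ∧ ‖p‖ ≤ 20 / β ∧ GoodOn (Mk k) (νk k) ω p (1 / 2) Λ₄

/-- The data pass to the limit. -/
def C_LBB : Prop := ∀ (β η ω K a : ℝ) (U : Ultrafilter ℕ) (Mk : ℕ → Surf) (νk : ℕ → Bool → E)
  (Rk : ℕ → ℝ) (Pk : ℕ → ℝ → Pl) (M : Surf), 1 ≤ K → 1 ≤ a →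
  (∀ k, (Mk k).Mem ∧ IsRef β (νk k) ∧ DatOn (Mk k) (νk k) η ω K 1 0 a (Rk k) (Pk k)) →
  Tendsto Rk U atTop → M.Mem → Conv (U : Filter ℕ) Mk M →
  ∃ (ν : Bool → E) (Pf : ℝ → Pl), IsRef β ν ∧ ∀ R, DatOn M ν η ω (2 * K) 1 0 a R Pf

/-- C9. -/
def C_LB : Prop := ∀ β η ω K a Λ₄ C : ℝ, η ≤ β / 100 → 0 < ω → ω ≤ β / 100000 → 1 ≤ K → 1 ≤ a →
  ∃ Λ₁ : ℝ, a ≤ Λ₁ ∧ ∀ (M : Surf) (ν : Bool → E) (R : ℝ) (Pf : ℝ → Pl), M.Mem → IsRef β ν →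
    Λ₁ ≤ R → 3 / 2 ≤ M.Θ 0 1 → DatOn M ν η ω K 1 0 a R Pf →
    (∀ p : E, p 2 = 0 → ‖p‖ ≤ 20 / β → ¬ GoodOn M ν ω p (1 / 2) Λ₄) →
    ∃ s : ℝ, a ≤ s ∧ s ≤ Λ₁ ∧ C * (1 / s) ^ (1 / 12 : ℝ) ≤ s * (2 - M.Θ 0 s)

/-- C9 at any centre and scale. -/
def C_LBX : Prop := ∀ β η ω K a Λ₄ C : ℝ, η ≤ β / 100 → 0 < ω → ω ≤ β / 100000 → 1 ≤ K → 1 ≤ a →
  ∃ Λ₁ : ℝ, a ≤ Λ₁ ∧ ∀ (M : Surf) (ν : Bool → E) (b R : ℝ) (c : E) (Pf : ℝ → Pl), M.Mem →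
    IsRef β ν → 0 < b → Λ₁ * b ≤ R → 3 / 2 ≤ M.Θ c b → DatOn M ν η ω K b c (a * b) R Pf →
    (∀ p : E, p 2 = c 2 → ‖p - c‖ ≤ 20 / β * b → ¬ GoodOn M ν ω p (b / 2) (Λ₄ * b)) →
    ∃ s : ℝ, a * b ≤ s ∧ s ≤ Λ₁ * b ∧ C * b * (b / s) ^ (1 / 12 : ℝ) ≤ s * (2 - M.Θ c s)

/-- The level is bounded by the defect at the top scale. -/
def C_KEYA : Prop := ∀ β : ℝ, 0 < β → ∃ η₀ : ℝ, 0 < η₀ ∧ ∀ η : ℝ, 0 < η → η ≤ η₀ →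
  ∃ ω₀ : ℝ, 0 < ω₀ ∧ ∀ ω : ℝ, 0 < ω → ω ≤ ω₀ → ∀ Cs : ℝ, 1 ≤ Cs → ∃ c₀ Λ : ℝ, 0 < c₀ ∧ 1 ≤ Λ ∧
    ∀ (M : Surf) (ν : Bool → E) (b₀ b R r : ℝ) (c : E) (P : Pl), M.Mem → IsRef β ν →
      Core M ν η b₀ R c r → b₀ ≤ Cs * b → P.Close ν (ω / 8) → Exc M β ν P c r (Cs * b) →
      GoodOn M ν ω c b R →
      (∀ p : E, p 2 = c 2 → ‖p - c‖ ≤ 20 / β * b → ¬ GoodOn M ν ω p (b / 2) (r / 16)) →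
      Λ * b ≤ r → c₀ * b ≤ r / 200 * (2 - M.Θ c (r / 200))

/-! ### C10: the global argument -/

/-- Above the scale `1 + |t|` the pattern comes from the pictures at the origin. -/
def C_KEYB : Prop := ∀ (M : Surf) (β ω d R b a : ℝ) (ν : Bool → E) (p : E), M.Mem → IsRef β ν →
  0 < ω → ω ≤ β / 10 → 0 < d → d ≤ ω / 10 → GOn M ν d ω 1 R → ‖p‖ ≤ 3 * (1 + |p 2|) →
  1 + |p 2| ≤ R → b ≤ ω / 10 * (1 + |p 2|) → 1 + |p 2| ≤ a → GoodOn M ν ω p b a →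
  Lev M ν ω R (p 2) b

/-- The levels. -/
def C_LEV : Prop := ∀ (M : Surf) (β ω d R : ℝ) (ν : Bool → E), M.Mem → IsRef β ν → 0 < ω →
  ω ≤ β / 10 → 0 < d → d ≤ ω / 10 → 1 ≤ R → GOn M ν d ω 1 R →
  GoodOn M ν ω 0 (10 * d / ω) R ∧ ∀ r : ℝ, 1 ≤ r → 16 * r ≤ R →
    0 ≤ Bl M ν ω R r ∧ Bl M ν ω R r ≤ 3 * (10 * d / ω) * r ∧
    (∀ r', r' ≤ r → Bl M ν ω R r' ≤ Bl M ν ω R r) ∧
    (∀ b, Bl M ν ω R r < b → ∀ t : ℝ, 1 + |t| ≤ 3 * r → Lev M ν ω R t b) ∧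
    (0 < Bl M ν ω R r → ∃ t : ℝ, 1 + |t| ≤ 3 * r ∧ ¬ Lev M ν ω R t (3 / 4 * Bl M ν ω R r)) ∧
    ∀ η C₁ : ℝ, (∀ (c : E) (b : ℝ), GoodOn M ν ω c b R → Ctr M ν η c (C₁ * b) R) →
      Core M ν η (C₁ * (2 * Bl M ν ω R r + 10 * d / ω)) R 0 r

/-- The iteration at the origin. -/
def C_RUN : Prop := ∀ β : ℝ, 0 < β → ∃ η₀ : ℝ, 0 < η₀ ∧ ∀ η : ℝ, 0 < η → η ≤ η₀ →
  ∃ θ ω₀ C₁ : ℝ, 0 < θ ∧ θ ≤ 1 / 2000 ∧ 0 < ω₀ ∧ 1 ≤ C₁ ∧ ∀ ω : ℝ, 0 < ω → ω ≤ ω₀ →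
    ∀ ε : ℝ, 0 < ε → ∃ d₀ : ℝ, 0 < d₀ ∧ ∀ (M : Surf) (ν : Bool → E) (d R : ℝ), M.Mem →
      IsRef β ν → 0 < d → d ≤ d₀ → 16 ≤ R → GOn M ν d ω 1 R →
      ∃ (P : ℕ → Pl) (p : ℕ → ℝ), Run M β ν η ω θ (10 * d / ω) C₁ ε R P p

/-- The defect at the origin along the iteration. -/
def C_KEYD : Prop := ∀ β : ℝ, 0 < β → ∃ η₀ : ℝ, 0 < η₀ ∧ ∀ η : ℝ, 0 < η → η ≤ η₀ →
  ∀ θ : ℝ, 0 < θ → θ ≤ 1 / 2000 → ∃ CD ε₀ : ℝ, 0 < CD ∧ 0 < ε₀ ∧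
    ∀ (M : Surf) (ν : Bool → E) (ω k C₁ ε d R : ℝ) (P : ℕ → Pl) (p : ℕ → ℝ) (J : ℕ), M.Mem →
      IsRef β ν → ω ≤ η → ε ≤ ε₀ → 0 < d → d ≤ θ * ε → 16 ≤ R → GOn M ν d ω 1 R →
      Run M β ν η ω θ k C₁ ε R P p → 1 ≤ rr θ R J → rr θ R (J + 1) < 1 →
      ∀ i, i ≤ J → ∀ c : E, Ctr M ν η c (lv M ν ω θ k C₁ R i) R → ‖c‖ ≤ rr θ R i / 300 →
        rr θ R i / 400 * (2 - M.Θ c (rr θ R i / 400)) ≤ ε + CD * ∑ l ∈ Finset.Icc i J,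
          (p l + lv M ν ω θ k C₁ R l) * ((p l + lv M ν ω θ k C₁ R l) / rr θ R l) ^ (1 / 12 : ℝ)

/-- The key inequality for the levels. -/
def C_KEYC : Prop := ∀ β : ℝ, 0 < β → ∃ η₀ : ℝ, 0 < η₀ ∧ ∀ η : ℝ, 0 < η → η ≤ η₀ →
  ∃ ω₀ : ℝ, 0 < ω₀ ∧ ∀ ω θ c : ℝ, 0 < ω → ω ≤ ω₀ → 0 < θ → θ ≤ 1 / 2000 → 0 < c →
    ∃ c₀ CD ε₀ : ℝ, 0 < c₀ ∧ 0 < CD ∧ 0 < ε₀ ∧
    ∀ (M : Surf) (ν : Bool → E) (C₁ ε d R : ℝ) (P : ℕ → Pl) (p : ℕ → ℝ) (J : ℕ), M.Mem →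
      IsRef β ν → 1 ≤ C₁ → ε ≤ ε₀ → 0 < d → d ≤ θ * ε → 16 ≤ R → GOn M ν d ω 1 R →
      Run M β ν η ω θ (10 * d / ω) C₁ ε R P p → 1 ≤ rr θ R J → rr θ R (J + 1) < 1 →
      ∀ j, 1 ≤ j → j ≤ J → ∃ i, j ≤ i + 1 ∧ i ≤ J ∧
        Bl M ν ω R (rr θ R j) ≤ c * (p i + lv M ν ω θ (10 * d / ω) C₁ R i)
          + (ε + CD * ∑ l ∈ Finset.Icc i J, (p l + lv M ν ω θ (10 * d / ω) C₁ R l)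
            * ((p l + lv M ν ω θ (10 * d / ω) C₁ R l) / rr θ R l) ^ (1 / 12 : ℝ)) / c₀

/-- The bootstrap for sequences. -/
def C_SEQ : Prop := ∀ θ C₁ : ℝ, 0 < θ → θ ≤ 1 / 2 → 1 ≤ C₁ → ∃ c : ℝ, 0 < c ∧
  ∀ c₀ CD ε : ℝ, 0 < c₀ → 0 < CD → 0 < ε → ∃ ε₁ : ℝ, 0 < ε₁ ∧
    ∀ (ε' k R : ℝ) (J : ℕ) (p B m : ℕ → ℝ), 0 < ε' → ε' ≤ ε₁ → 0 ≤ k → k ≤ ε' → 1 ≤ rr θ R J →
      (∀ j, j ≤ J → 0 ≤ p j ∧ 0 ≤ B j ∧ m j = p j + C₁ * (2 * B j + k) ∧ m j ≤ ε' * rr θ R j) →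
      (∀ j, j + 1 ≤ J → p (j + 1) ≤ θ / 2 * p j + C₁ * (2 * B j + k)) →
      (∀ j, 1 ≤ j → j ≤ J → ∃ i, j ≤ i + 1 ∧ i ≤ J ∧ B j ≤ c * m i
        + (ε' + CD * ∑ l ∈ Finset.Icc i J, m l * (m l / rr θ R l) ^ (1 / 12 : ℝ)) / c₀) →
      ∑ j ∈ Finset.range (J + 1), m j / rr θ R j ≤ ε ∧
      ∀ j, j ≤ J → m j ≤ ε * (1 + rr θ R j * (2 / 3) ^ j)

/-- The outcome of the bootstrap. -/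
def C_BOOT : Prop := ∀ β : ℝ, 0 < β → ∃ η₀ : ℝ, 0 < η₀ ∧ ∀ η : ℝ, 0 < η → η ≤ η₀ →
  ∃ θ ω₀ : ℝ, 0 < θ ∧ θ ≤ 1 / 2 ∧ 0 < ω₀ ∧ ∀ ω : ℝ, 0 < ω → ω ≤ ω₀ → ∀ ε : ℝ, 0 < ε →
    ∃ d₀ : ℝ, 0 < d₀ ∧ ∀ (M : Surf) (ν : Bool → E) (d R : ℝ), M.Mem → IsRef β ν → 0 < d →
      d ≤ d₀ → 16 ≤ R → M.Cross 0 1 d (ν false) (ν true) → GOn M ν d ω 1 R →
      ∃ (P : ℕ → Pl) (m : ℕ → ℝ), ∀ j, 1 ≤ rr θ R j → Core M ν η (m j) R 0 (rr θ R j) ∧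
        (P j).Close ν ε ∧ Exc M β ν (P j) 0 (rr θ R j) (m j) ∧
        m j ≤ ε * (1 + rr θ R j * (2 / 3) ^ j)

/-- The cross pictures persist at all scales. -/
def C_GALL : Prop := ∀ β : ℝ, 0 < β → ∃ ω₀ : ℝ, 0 < ω₀ ∧ ∀ ω : ℝ, 0 < ω → ω ≤ ω₀ →
  ∃ d₀ : ℝ, 0 < d₀ ∧ ∀ d : ℝ, 0 < d → d ≤ d₀ → ∃ ε : ℝ, 0 < ε ∧ ∀ (M : Surf) (ν : Bool → E),
    M.Mem → IsRef β ν → M.Cross 0 1 d (ν false) (ν true) → GOn M ν d ω 1 16 → 2 - M.Θ 0 1 ≤ ε →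
    ∀ R, GOn M ν d ω 1 R

/-- Proposition I in normalised position. -/
def C_FINAL : Prop := ∀ β : ℝ, 0 < β → ∃ δ ε : ℝ, 0 < δ ∧ δ ≤ 1 ∧ 0 < ε ∧
  ∀ (M : Surf) (ν : Bool → E), M.Mem → IsRef β ν → M.Cross 0 1 δ (ν false) (ν true) →
    2 - M.Θ 0 1 ≤ ε → IsScherk M.S

end MW.CI
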