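import Pool.Agent.P.MP_064970_gt.Base

/-! Statements of the planar part of Case II (D4 GRID). -/

open MeasureTheory Set Filter Topology Metric
open scoped RealInnerProductSpace ENNReal NNReal ComplexConjugate Real

noncomputable section

namespace MW

/-- First partial derivative of a function on the plane. -/
def p1 (z : ℂ → ℝ) (y : ℂ) : ℝ := fderiv ℝ z y 1

/-- Second partial derivative of a function on the plane. -/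
def p2 (z : ℂ → ℝ) (y : ℂ) : ℝ := fderiv ℝ z y Complex.I

/-- The closed square of half side `r`. -/
def Sq (r : ℝ) : Set ℂ := {y | |y.re| ≤ r ∧ |y.im| ≤ r}

/-- The interval `[-2, 2]`. -/
def I2 : Set ℝ := Icc (-2) 2

/-- Test functions in the disc of radius two, with derivatives bounded by `m`. -/
structure Test (z : ℂ → ℝ) (m : ℝ) : Prop where
  diff : ContDiff ℝ 2 z
  supp : ∀ y, 2 ≤ ‖y‖ → z y = 0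
  b1 : ∀ y, |p1 z y| ≤ m
  b2 : ∀ y, |p2 z y| ≤ m
  b11 : ∀ y, |p1 (p1 z) y| ≤ m
  b22 : ∀ y, |p2 (p2 z) y| ≤ m

/-- A function that is controlled on most vertical lines (`re ∈ V`) and most horizontal lines
(`im ∈ H`) of the square and is almost harmonic in a weak sense. -/
structure GridData (a : ℂ → ℝ) (V H : Set ℝ) (ev eh : ℝ → ℝ) (κ : ℝ) : Prop where
  cont : Continuous a
  mV : MeasurableSet V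
  mH : MeasurableSet H
  κ_nonneg : 0 ≤ κ
  cV : volume (I2 \ V) ≤ ENNReal.ofReal κ
  cH : volume (I2 \ H) ≤ ENNReal.ofReal κ
  ev_meas : Measurable ev
  eh_meas : Measurable eh
  ev_nonneg : ∀ s, 0 ≤ ev s
  eh_nonneg : ∀ t, 0 ≤ eh t
  ev_int : IntegrableOn ev I2
  eh_int : IntegrableOn eh I2
  ev_le : ∫ s in I2, ev s ≤ 1
  eh_le : ∫ t in I2, eh t ≤ 1
  hor : ∀ t ∈ H ∩ I2, ∀ s ∈ I2, ∀ s' ∈ I2,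
    (a ⟨s, t⟩ - a ⟨s', t⟩) ^ 2 ≤ |s - s'| * eh t + κ
  ver : ∀ s ∈ V ∩ I2, ∀ t ∈ I2, ∀ t' ∈ I2,
    (a ⟨s, t⟩ - a ⟨s, t'⟩) ^ 2 ≤ |t - t'| * ev s + κ
  weak : ∀ (z : ℂ → ℝ) (m : ℝ), Test z m →
    |(∫ y in {y : ℂ | y.im ∈ H}, a y * p1 (p1 z) y) +
      ∫ y in {y : ℂ | y.re ∈ V}, a y * p2 (p2 z) y| ≤ κ * m

/-- The function `a - c` cut off to the grid `V × H` in the square. -/
def gA (a : ℂ → ℝ) (V H : Set ℝ) (c : ℝ) : ℂ → ℝ :=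
  {y : ℂ | y ∈ Sq 2 ∧ y.re ∈ V ∧ y.im ∈ H}.indicator fun y => a y - c

/-- Bounds along L-shaped paths from one base point. -/
structure GridBase (a : ℂ → ℝ) (V H : Set ℝ) (ev eh : ℝ → ℝ) (c : ℝ) : Prop where
  hor : ∀ t ∈ H ∩ I2, ∀ s ∈ I2, (a ⟨s, t⟩ - c) ^ 2 ≤ 8 * eh t + 12
  ver : ∀ s ∈ V ∩ I2, ∀ t ∈ I2, (a ⟨s, t⟩ - c) ^ 2 ≤ 8 * ev s + 12

/-- A compactly supported solution of `Δ z = ρ_s - ρ_1`. -/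
def S_GK : Prop := ∃ C : ℝ, 0 < C ∧ ∀ (s : ℝ) (y₀ : ℂ), 0 < s → s ≤ 1 →
  ∃ z : ℂ → ℝ, ContDiff ℝ 2 z ∧ (∀ w, 1 ≤ ‖w - y₀‖ → z w = 0) ∧
    (∀ w, p1 (p1 z) w + p2 (p2 z) w = lam (‖w - y₀‖ ^ 2 / s ^ 2) / s ^ 2 - lam (‖w - y₀‖ ^ 2)) ∧
    ∀ w, |p1 z w| ≤ C / s ^ 2 ∧ |p2 z w| ≤ C / s ^ 2 ∧ |p1 (p1 z) w| ≤ C / s ^ 2 ∧
      |p2 (p2 z) w| ≤ C / s ^ 2

/-- Taylor expansion of the mean at scale one. -/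
def S_GT : Prop := ∃ C : ℝ, 0 < C ∧ ∀ A : ℂ → ℝ, Integrable A →
  ∃ (c₀ : ℝ) (g : ℂ), |c₀| ≤ C * ∫ w, |A w| ∧ ‖g‖ ≤ C * ∫ w, |A w| ∧ ∀ y : ℂ, ‖y‖ ≤ 1 →
    |(∫ w, A w * lam (‖w - y‖ ^ 2)) - (c₀ + ⟪g, y⟫)| ≤ C * ‖y‖ ^ 2 * ∫ w, |A w|

/-- The distance to the mean at scale `s` is bounded by translations. -/
def S_GJ : Prop := ∀ (A : ℂ → ℝ) (B : Set ℂ) (s β C : ℝ), Measurable A → (∀ y, |A y| ≤ C) →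
  MeasurableSet B → volume B < ∞ → 0 < s →
  (∀ h : ℂ, ‖h‖ ≤ s → ∫ y in B, (A (y + h) - A y) ^ 2 ≤ β) →
  ∫ y in B, (A y - (∫ w, A w * lam (‖w - y‖ ^ 2 / s ^ 2)) / s ^ 2) ^ 2 ≤ β

/-- Base point, size and weak equation of the cut off function. -/
def S_GB : Prop := ∃ C : ℝ, 0 < C ∧ ∀ (a : ℂ → ℝ) (V H : Set ℝ) (ev eh : ℝ → ℝ) (κ : ℝ),
  GridData a V H ev eh κ → κ ≤ 1 → ∃ c : ℝ, GridBase a V H ev eh c ∧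
    ∫ y, |gA a V H c y| ≤ C ∧ ∀ (z : ℂ → ℝ) (m : ℝ), Test z m →
      |∫ y, gA a V H c y * (p1 (p1 z) y + p2 (p2 z) y)| ≤ C * κ * m

/-- The translation estimate. -/
def S_GTR : Prop := ∃ C : ℝ, 0 < C ∧ ∀ (a : ℂ → ℝ) (V H : Set ℝ) (ev eh : ℝ → ℝ) (κ c : ℝ),
  GridData a V H ev eh κ → GridBase a V H ev eh c → ∀ h : ℂ, ‖h‖ ≤ 1 →
    ∫ y in Sq (1 / 2), (gA a V H c (y + h) - gA a V H c y) ^ 2 ≤ C * (‖h‖ + κ)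

/-- D4: affine approximation on many lines. -/
def S_GRID : Prop := ∃ C₀ : ℝ, 0 < C₀ ∧ ∀ θ : ℝ, 0 < θ → θ ≤ 1 / 4 →
  ∃ κ₀ C₁ : ℝ, 0 < κ₀ ∧ κ₀ ≤ 1 ∧ 0 < C₁ ∧
    ∀ (a : ℂ → ℝ) (V H : Set ℝ) (ev eh : ℝ → ℝ) (κ : ℝ), GridData a V H ev eh κ → κ ≤ κ₀ →
    ∃ (c₀ : ℝ) (g : ℂ) (V' H' : Set ℝ), MeasurableSet V' ∧ MeasurableSet H' ∧ V' ⊆ V ∧ H' ⊆ H ∧
      ‖g‖ ≤ C₀ ∧
      θ / 2 ≤ volume.real (V' ∩ Icc θ (2 * θ)) ∧ θ / 2 ≤ volume.real (V' ∩ Icc (-(2 * θ)) (-θ)) ∧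
      θ / 2 ≤ volume.real (H' ∩ Icc θ (2 * θ)) ∧ θ / 2 ≤ volume.real (H' ∩ Icc (-(2 * θ)) (-θ)) ∧
      ∫ y in {y : ℂ | y ∈ Sq (2 * θ) ∧ (y.re ∈ V' ∨ y.im ∈ H')}, (a y - c₀ - ⟪g, y⟫) ^ 2
        ≤ C₀ * θ ^ 6 ∧
      ∀ y ∈ Sq (2 * θ), y.re ∈ V' ∨ y.im ∈ H' → |a y - c₀ - ⟪g, y⟫| ≤ C₁

/-- From a Lipschitz function with an energy bound on an open set to grid data. -/
def S_GLINE : Prop := ∀ (a : ℂ → ℝ) (K : ℝ≥0) (Ro : Set ℂ) (V H : Set ℝ) (σ τ κ : ℝ),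
  LipschitzWith K a → IsOpen Ro → (∀ y ∈ Ro, DifferentiableAt ℝ a y) → MeasurableSet V →
  MeasurableSet H → 0 < σ → 0 ≤ τ → 0 ≤ κ → κ ≤ 1 → 16 * K * τ ≤ κ * σ →
  volume (I2 \ V) ≤ ENNReal.ofReal κ → volume (I2 \ H) ≤ ENNReal.ofReal κ →
  (∀ s ∈ V ∩ I2, volume {t : ℝ | t ∈ I2 ∧ (⟨s, t⟩ : ℂ) ∉ Ro} ≤ ENNReal.ofReal τ) →
  (∀ t ∈ H ∩ I2, volume {s : ℝ | s ∈ I2 ∧ (⟨s, t⟩ : ℂ) ∉ Ro} ≤ ENNReal.ofReal τ) →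
  ∫ y in Ro ∩ Sq 2, ‖fderiv ℝ a y‖ ^ 2 ≤ σ ^ 2 / 2 →
  (∀ (z : ℂ → ℝ) (m : ℝ), Test z m →
    |(∫ y in Ro ∩ {y : ℂ | y.im ∈ H}, p1 a y * p1 z y) +
      ∫ y in Ro ∩ {y : ℂ | y.re ∈ V}, p2 a y * p2 z y| ≤ κ / 2 * σ * m) →
  ∃ ev eh : ℝ → ℝ, GridData (fun y => a y / σ) V H ev eh κ

end MW
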