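import Pool.Agent.P.MP_064970_gt.ST
import Pool.Agent.P.MP_064970_gt.SDP

/-! Statements of section 5 (Case II). -/

open MeasureTheory Set Filter Topology Metric
open scoped RealInnerProductSpace ENNReal NNReal ComplexConjugate Real

noncomputable section

namespace MW

/-- The hypothesis `H(k)` at scale one in the vertical frame. -/
structure Surf.Hk (M : Surf) (k : ℝ) : Prop where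
  dens : 2 - M.Θ 0 k ≤ k
  side : ∀ x ∈ ball (0 : E) (2 / k), k < |x 2| → x ∈ M.W'

/-- The hypothesis `H(k)` at scale `r` in the frame `e`. -/
structure Surf.HkF (M : Surf) (e : E) (r k : ℝ) : Prop where
  dens : 2 - M.Θ 0 (k * r) ≤ k
  side : ∀ x ∈ ball (0 : E) (2 * r / k), k * r < |⟪x, e⟫| → x ∈ M.W'

/-- A wide double cone about `e` lies in `W'` outside a ball. -/
def Surf.Cone (M : Surf) (e : E) (s : ℝ) : Prop :=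
  ∃ R : ℝ, 0 < R ∧ ∀ x : E, R ≤ ‖x‖ → s * ‖x‖ < |⟪x, e⟫| → x ∈ M.W'

/-- The cone condition at `p` between the radii `ρ` and `T`, with slope `L`. -/
def Surf.CXat (M : Surf) (p : E) (ρ L T : ℝ) : Prop :=
  ∀ z : E, ρ ≤ ‖z - p‖ → ‖z - p‖ < T → L * ‖pr z - pr p‖ < |z 2 - p 2| → z ∈ M.W'

/-- A bump function: one on the disc of radius `r / 2`, zero off the disc of radius `r`. -/
def bmp (y : ℂ) (r : ℝ) (w : ℂ) : ℝ := Real.smoothTransition (4 / 3 * (1 - ‖w - y‖ ^ 2 / r ^ 2))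

/-- The flux through the points with downward normal. -/
def Surf.FluxN (M : Surf) (T : ℝ) (η : ℂ → ℝ) : ℝ :=
  ∫ x in lay T, fderiv ℝ η (pr x) (pr (M.N x)) * max (-(M.N x 2)) 0 ∂M.μ

/-- Over the disc the surface consists of two almost horizontal sheets in the layer `|x₃| < h`. -/
def Surf.TyR (M : Surf) (om : ℝ) (y : ℂ) (r h : ℝ) : Prop :=
  ∀ z ∈ ball y r, ∃ t₁ t₂ : ℝ, t₂ < t₁ ∧ |t₁| < h ∧ |t₂| < h ∧ pt z t₁ ∈ M.S ∧ pt z t₂ ∈ M.S ∧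
    ‖M.N (pt z t₁) - e3‖ ≤ om ∧ ‖M.N (pt z t₂) + e3‖ ≤ om ∧
    ∀ t, |t| < h → pt z t ∈ M.S → t = t₁ ∨ t = t₂

/-- The stopping scale `b` and the centre `p` over `y`. -/
structure Surf.Stop (M : Surf) (k om₀ : ℝ) (y : ℂ) (b : ℝ) (p : E) : Prop where
  pos : 0 < b
  base : pr p = y
  low : |p 2| ≤ k + 2 * b
  dens : 3 / 2 ≤ M.Θ p (2 * b)
  tilt : ∀ r, b < r → r ≤ 1 → ∫ x in cyl (ball y r) 1, ‖pr (M.N x)‖ ^ 2 ∂M.μ ≤ om₀ ^ 2 * r ^ 2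
  stop : ∃ r, b / 2 < r ∧ r ≤ b ∧
    (om₀ ^ 2 * r ^ 2 ≤ ∫ x in cyl (ball y r) 1, ‖pr (M.N x)‖ ^ 2 ∂M.μ ∨
      ∀ t : ℝ, |t| ≤ 1 → M.Θ (pt y t) r < 3 / 2)

/-- A cell blown up to unit size. -/
structure Surf.CellHyp (M : Surf) (Λ₀ L om₀ T : ℝ) : Prop where
  dens : 3 / 2 ≤ M.Θ 0 2
  cx : M.CXat 0 Λ₀ L T
  stop : ∃ r, 1 / 2 < r ∧ r ≤ 1 ∧
    (om₀ ^ 2 * r ^ 2 ≤ ∫ x in cyl (ball 0 r) (2 * Λ₀), ‖pr (M.N x)‖ ^ 2 ∂M.μ ∨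
      ∀ t : ℝ, |t| ≤ T → M.Θ (pt 0 t) r < 3 / 2)

/-- The constants of the cell decomposition. -/
structure Par where
  om : ℝ
  Λ₀ : ℝ
  Λ : ℝ
  c : ℝ

/-- Admissible constants. -/
structure Par.Ok (P : Par) : Prop where
  om_pos : 0 < P.om
  om_le : P.om ≤ 1 / 10
  one_le : 1 ≤ P.Λ₀
  le : P.Λ₀ ≤ P.Λ
  four_le : 4 ≤ P.Λ
  c_pos : 0 < P.c
  c_le : P.c ≤ 1

/-- A cell: centre `y`, size `b ≤ β`, point `p` over `y`. -/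
structure Surf.Cell (M : Surf) (P : Par) (β : ℝ) (y : ℂ) (b : ℝ) (p : E) : Prop where
  pos : 0 < b
  small : b ≤ β
  near : ‖y‖ ≤ 3
  base : pr p = y
  low : |p 2| ≤ 1 / 2
  dens : 3 / 2 ≤ M.Θ p (2 * b)
  cx : M.CXat p (P.Λ₀ * b) (P.om / 8) 20

/-- Cells that carry energy. -/
def Surf.TyE (M : Surf) (P : Par) (y : ℂ) (b : ℝ) : Prop :=
  P.c * b ^ 2 ≤ M.E0 e3 (cyl (ball y (P.Λ * b)) 1)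

/-- Cells that carry flux. -/
def Surf.TyF (M : Surf) (P : Par) (k : ℝ) (y : ℂ) (b : ℝ) : Prop :=
  P.c * b ≤ M.Flux (1 / k) (bmp y (P.Λ * b)) ∧ ∀ θ : ℂ, ‖θ‖ = 1 →
    P.c * b ^ 2 ≤ ∫ x in cyl (ball y (P.Λ * b)) 1, ⟪pr (M.N x), θ⟫ ^ 2 ∂M.μ

/-- The cover of the disc of radius three by the regular set and the enlarged bad cells. -/
structure Surf.Cover (M : Surf) (P : Par) (k β : ℝ) (u : Finset ℂ) (b : ℂ → ℝ) (p : ℂ → E)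
    (Ro : Set ℂ) : Prop where
  cell : ∀ y ∈ u, M.Cell P β y (b y) (p y)
  bad : ∀ y ∈ u, M.TyE P y (b y) ∨ M.TyF P k y (b y)
  disj : ∀ y ∈ u, ∀ z ∈ u, y ≠ z → Disjoint (closedBall y (P.Λ * b y)) (closedBall z (P.Λ * b z))
  isOpen : IsOpen Ro
  cover : ∀ z : ℂ, ‖z‖ ≤ 3 → z ∈ Ro ∨ ∃ y ∈ u, ‖z - y‖ ≤ 5 * P.Λ * b y
  off : ∀ z ∈ Ro, ∀ y ∈ u, 5 * P.Λ * b y < ‖z - y‖
  reg : ∀ z ∈ Ro, ∃ (y : ℂ) (b' : ℝ) (p' : E), M.Cell P β y b' p' ∧ M.TyR P.om y (4 * b') 1 ∧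
    z ∈ ball y b'

/-- Height of the highest point of `S` over `z` in the layer `|x₃| < 1`. -/
def Surf.hi (M : Surf) (z : ℂ) : ℝ := sSup {t : ℝ | |t| < 1 ∧ pt z t ∈ M.S}

/-- Height of the lowest point of `S` over `z` in the layer `|x₃| < 1`. -/
def Surf.lo (M : Surf) (z : ℂ) : ℝ := sInf {t : ℝ | |t| < 1 ∧ pt z t ∈ M.S}

/-- The gradient of a graph with normal `n`. -/
def slp (n : E) : ℂ →L[ℝ] ℝ := (-(n 2)⁻¹) • innerSL ℝ (pr n)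

/-- Two differentiable sheets over `z`. -/
structure Surf.Sheet (M : Surf) (om : ℝ) (z : ℂ) : Prop where
  lt : M.lo z < M.hi z
  hi_lt : |M.hi z| < 1
  lo_lt : |M.lo z| < 1
  hi_mem : pt z (M.hi z) ∈ M.S
  lo_mem : pt z (M.lo z) ∈ M.S
  hi_N : ‖M.N (pt z (M.hi z)) - e3‖ ≤ om
  lo_N : ‖M.N (pt z (M.lo z)) + e3‖ ≤ om
  uniq : ∀ t, |t| < 1 → pt z t ∈ M.S → t = M.hi z ∨ t = M.lo z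
  partner : M.partner e3 (pt z (M.hi z)) = pt z (M.lo z)
  hi_der : HasFDerivAt M.hi (slp (M.N (pt z (M.hi z)))) z
  lo_der : HasFDerivAt M.lo (slp (M.N (pt z (M.lo z)))) z

/-- The Lipschitz extension of the midpoint height. -/
structure Surf.Mid (M : Surf) (P : Par) (u : Finset ℂ) (p : ℂ → E) (Ro : Set ℂ) (a : ℂ → ℝ) :
    Prop where
  lip : ∀ z w : ℂ, |a z - a w| ≤ 4 * P.Λ₀ * ‖z - w‖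
  reg : ∀ z ∈ Ro, a z = (M.hi z + M.lo z) / 2
  bad : ∀ y ∈ u, a y = p y 2
  hi : ∀ z ∈ Ro, ∀ w ∈ Ro, |M.hi z - M.hi w| ≤ 4 * P.Λ₀ * ‖z - w‖

/-- The upward unit normal of a plane with gradient `g`. -/
def dir (g : ℂ) : E := (√(1 + ‖g‖ ^ 2))⁻¹ • pt (-g) 1

/-- Projection to the horizontal plane along `dir g`. -/
def vp (g : ℂ) (x : E) : ℂ := pr x + x 2 • g

/-- The part of the square on the chosen lines. -/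
def onL (θ : ℝ) (V H : Set ℝ) : Set ℂ := {y | y ∈ Sq (2 * θ) ∧ (y.re ∈ V ∨ y.im ∈ H)}

/-- The points of a layer that project to the chosen lines. -/
def ovL (g : ℂ) (θ : ℝ) (V H : Set ℝ) : Set E := {x | vp g x ∈ onL θ V H ∧ |x 2| < 1 / 2}

/-! ### D1 -/

/-- Caccioppoli inequality for a linear function, and the tilt of two pictures. -/
def S_CACC3 : Prop :=
  (∃ C : ℝ, 0 < C ∧ ∀ M : Surf, M.Mem → ∀ (p e : E) (r h c : ℝ), ‖e‖ = 1 → 0 < r →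
    (∀ x ∈ M.S ∩ ball p (2 * r), |⟪x, e⟫ - c| ≤ h) →
    ∫ x in ball p r, wedge (M.N x) e ^ 2 ∂M.μ ≤ C * h ^ 2) ∧
  ∀ M : Surf, M.Mem → ∀ (p ν e : E) (s : ℝ), ‖ν‖ = 1 → ‖e‖ = 1 → 0 < s → 3 / 2 ≤ M.Θ p s →
    wedge ν e ^ 2 * s ^ 2 ≤ 2 * (∫ x in ball p s, wedge (M.N x) ν ^ 2 ∂M.μ)
      + 2 * ∫ x in ball p s, wedge (M.N x) e ^ 2 ∂M.μ

/-- The stopping scale exists and is small. -/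
def S_STOP : Prop := ∀ om₀ β : ℝ, 0 < om₀ → 0 < β → ∃ k₀ : ℝ, 0 < k₀ ∧ ∀ k : ℝ, 0 < k → k ≤ k₀ →
  ∀ M : Surf, M.Mem → M.Hk k → ∀ y : ℂ, ‖y‖ ≤ 3 → ∃ (b : ℝ) (p : E), b ≤ β ∧ M.Stop k om₀ y b p

/-- The cone condition above the stopping scale. -/
def S_CX : Prop := ∀ ε : ℝ → ℝ, (∀ δ, 0 < δ → 0 < ε δ) → ∀ L : ℝ, 0 < L → L ≤ 1 →
  ∃ om₀ Λ₀ β₀ : ℝ, 0 < om₀ ∧ 1 ≤ Λ₀ ∧ 0 < β₀ ∧ ∀ k : ℝ, 0 < k → k ≤ β₀ → ∀ M : Surf, M.Mem →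
    M.TypeII ε → M.Hk k → ∀ (y : ℂ) (b : ℝ) (p : E), ‖y‖ ≤ 3 → b ≤ β₀ → M.Stop k om₀ y b p →
    M.CXat p (Λ₀ * b) L 20

/-! ### D2 -/

/-- A cell with a flat picture at unit scale carries energy. -/
def S_CELLB : Prop := ∀ om₀ Λ₀ L : ℝ, 0 < om₀ → 1 ≤ Λ₀ → 0 < L → L ≤ 1 / 10 → ∃ c : ℝ, 0 < c ∧
  ∀ R : ℝ, 0 < R → ∃ δ T₀ : ℝ, 0 < δ ∧ δ ≤ 1 ∧ ∀ M : Surf, M.Mem → ∀ T : ℝ, T₀ ≤ T →
    M.CellHyp Λ₀ L om₀ T → ∀ x₀ ν : E, ‖x₀‖ ≤ R → M.FlatW x₀ 1 δ ν →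
    c ≤ M.E0 e3 (cyl (ball 0 1) (2 * Λ₀))

/-- A disconnected limit gives regular cells. -/
def S_CELLR : Prop := ∀ (U : Ultrafilter ℕ) (Mk : ℕ → Surf) (M : Surf) (om Λ₀ : ℝ),
  (∀ k, (Mk k).Mem) → M.Mem → Conv (U : Filter ℕ) Mk M → ¬ IsPreconnected M.S → 0 < om →
  om ≤ 1 / 10 → 1 ≤ Λ₀ → (∀ z : E, Λ₀ < ‖z‖ → om / 8 * ‖pr z‖ < |z 2| → z ∈ M.W') →
  ∀ᶠ k in (U : Filter ℕ), (Mk k).TyR om 0 4 (Λ₀ + 5)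

/-- The flux converges when the limit is a bigraph. -/
def S_FLUXLIM : Prop := ∀ (U : Ultrafilter ℕ) (Mk : ℕ → Surf) (M : Surf) (a Λ : ℝ),
  (∀ k, (Mk k).Mem) → M.Mem → Conv (U : Filter ℕ) Mk M → M.Bigraph e3 a → 0 < Λ →
  (∀ᶠ k in (U : Filter ℕ), (Mk k).Slab (closedBall 0 Λ) Λ (2 * Λ)) →
  M.Slab (closedBall 0 Λ) (3 / 2 * Λ) (2 * Λ) →
  Tendsto (fun k => (Mk k).Flux (2 * Λ) (bmp 0 Λ)) U (𝓝 (M.FluxN (2 * Λ) (bmp 0 Λ)))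

/-- The flux of a bigraph is positive. -/
def S_FLUXPOS : Prop := ∀ (M : Surf) (a : ℝ), M.Mem → M.Bigraph e3 a → ∃ Λ₁ : ℝ, ∀ Λ : ℝ, Λ₁ ≤ Λ →
  0 < Λ → M.Slab (closedBall 0 Λ) (3 / 2 * Λ) (2 * Λ) → 0 < M.FluxN (2 * Λ) (bmp 0 Λ)

/-- The flux is almost monotone in the radius. -/
def S_FLUXMONO : Prop := ∃ C : ℝ, 0 < C ∧ ∀ M : Surf, M.Mem → ∀ Λ' Λ T : ℝ, 1 ≤ Λ' → 2 * Λ' ≤ Λ →
  2 * Λ ≤ T → M.Slab (closedBall 0 Λ') Λ' T → M.Slab (closedBall 0 Λ) Λ T →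
  M.Flux (2 * Λ') (bmp 0 Λ') - C * Λ ^ 3 / T ≤ M.Flux (2 * Λ) (bmp 0 Λ)

/-- The normals of a connected nonflat limit are not orthogonal to a horizontal direction. -/
def S_CELLN : Prop := ∀ (U : Ultrafilter ℕ) (Mk : ℕ → Surf) (M : Surf) (θk : ℕ → ℂ),
  (∀ k, (Mk k).Mem) → M.Mem → Conv (U : Filter ℕ) Mk M → IsPreconnected M.S → ¬ M.Flat →
  (∀ k, ‖θk k‖ = 1) →
  ¬ ∀ R, Tendsto (fun k => ∫ x in ball 0 R, ⟪pr ((Mk k).N x), θk k⟫ ^ 2 ∂(Mk k).μ) U (𝓝 0)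

/-- D2 at unit scale. -/
def S_CELL : Prop := ∀ ε : ℝ → ℝ, (∀ δ, 0 < δ → 0 < ε δ) → ∀ om om₀ Λ₀ : ℝ, 0 < om → om ≤ 1 / 10 →
  0 < om₀ → 1 ≤ Λ₀ → ∃ Λ c T₀ : ℝ, Λ₀ ≤ Λ ∧ 4 ≤ Λ ∧ 0 < c ∧ c ≤ 1 ∧ 0 < T₀ ∧
    ∀ M : Surf, M.Mem → M.TypeII ε → ∀ T : ℝ, T₀ ≤ T → M.CellHyp Λ₀ (om / 8) om₀ T →
      M.TyR om 0 4 (Λ₀ + 5) ∨ c ≤ M.E0 e3 (cyl (ball 0 Λ) (2 * Λ)) ∨
      (c ≤ M.Flux (2 * Λ) (bmp 0 Λ) ∧ ∀ θ : ℂ, ‖θ‖ = 1 →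
        c ≤ ∫ x in cyl (ball 0 Λ) (2 * Λ), ⟪pr (M.N x), θ⟫ ^ 2 ∂M.μ)

/-- D1 and D2: every point of the disc is the centre of a cell of one of the three types. -/
def S_CELLS : Prop := ∀ ε : ℝ → ℝ, (∀ δ, 0 < δ → 0 < ε δ) → ∀ om : ℝ, 0 < om → om ≤ 1 / 10 →
  ∃ P : Par, P.Ok ∧ P.om = om ∧ ∀ β : ℝ, 0 < β → ∃ k₀ : ℝ, 0 < k₀ ∧ ∀ k : ℝ, 0 < k → k ≤ k₀ →
    ∀ M : Surf, M.Mem → M.TypeII ε → M.Hk k → ∀ y : ℂ, ‖y‖ ≤ 3 → ∃ (b : ℝ) (p : E),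
      M.Cell P β y b p ∧ (M.TyR P.om y (4 * b) 1 ∨ M.TyE P y b ∨ M.TyF P k y b)

/-! ### D3 -/

/-- The Vitali selection. -/
def S_COVER3 : Prop := ∀ (M : Surf) (P : Par) (k β : ℝ), P.Ok →
  (∀ y : ℂ, ‖y‖ ≤ 3 → ∃ (b : ℝ) (p : E),
    M.Cell P β y b p ∧ (M.TyR P.om y (4 * b) 1 ∨ M.TyE P y b ∨ M.TyF P k y b)) →
  ∃ (u : Finset ℂ) (b : ℂ → ℝ) (p : ℂ → E) (Ro : Set ℂ), M.Cover P k β u b p Ro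

/-- The two sheets over a regular disc. -/
def S_RCELL : Prop := ∀ (M : Surf) (om : ℝ) (y : ℂ) (r : ℝ), M.Mem → 0 < om → om ≤ 1 / 10 →
  M.TyR om y r 1 → (∀ z ∈ ball y r, M.Sheet om z) ∧ ∀ z ∈ ball y r, ∀ w ∈ ball y r,
    |M.hi z - M.hi w| ≤ 2 * om * ‖z - w‖ ∧ |M.lo z - M.lo w| ≤ 2 * om * ‖z - w‖

/-- The Lipschitz extension exists. -/
def S_MID : Prop := ∀ (M : Surf) (P : Par) (k β : ℝ) (u : Finset ℂ) (b : ℂ → ℝ) (p : ℂ → E)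
  (Ro : Set ℂ), M.Mem → P.Ok → P.Λ * β ≤ 1 / 10 → M.Cover P k β u b p Ro →
  ∃ a : ℂ → ℝ, M.Mid P u p Ro a

/-- The bad cells are few. -/
def S_SUMS : Prop := ∀ P : Par, P.Ok → ∃ C k₀ : ℝ, 0 < C ∧ 0 < k₀ ∧ ∀ (M : Surf) (k β : ℝ)
  (u : Finset ℂ) (b : ℂ → ℝ) (p : ℂ → E) (Ro : Set ℂ), M.Mem → 0 < k → k ≤ k₀ →
  P.Λ * β ≤ 1 / 10 → M.Hk k → M.Cover P k β u b p Ro → ∀ w ⊆ u,
    ((∀ y ∈ w, M.TyE P y (b y)) → P.c * ∑ y ∈ w, b y ^ 2 ≤ M.E0 e3 (ball 0 5)) ∧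
    ((∀ y ∈ w, M.TyF P k y (b y)) → ∑ y ∈ w, b y ≤ C * k)

/-- Most lines miss the large discs and meet the small discs in a short set (planar). -/
def S_LINES : Prop := ∀ (u₁ u₂ : Finset ℂ) (ρ : ℂ → ℝ) (τ : ℝ), (∀ y ∈ u₁, 0 ≤ ρ y) →
  (∀ y ∈ u₂, 0 ≤ ρ y) → 0 < τ → ∃ V H : Set ℝ, MeasurableSet V ∧ MeasurableSet H ∧
    volume Vᶜ ≤ ENNReal.ofReal (2 * ∑ y ∈ u₁, ρ y + 4 * (∑ y ∈ u₂, ρ y ^ 2) / τ) ∧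
    volume Hᶜ ≤ ENNReal.ofReal (2 * ∑ y ∈ u₁, ρ y + 4 * (∑ y ∈ u₂, ρ y ^ 2) / τ) ∧
    (∀ z : ℂ, z.re ∈ V ∨ z.im ∈ H → ∀ y ∈ u₁, ρ y < ‖z - y‖) ∧
    (∀ s ∈ V, volume {t : ℝ | ∃ y ∈ u₂, ‖(⟨s, t⟩ : ℂ) - y‖ ≤ ρ y} ≤ ENNReal.ofReal τ) ∧
    ∀ t ∈ H, volume {s : ℝ | ∃ y ∈ u₂, ‖(⟨s, t⟩ : ℂ) - y‖ ≤ ρ y} ≤ ENNReal.ofReal τ

/-- The first variation in the vertical direction, written on the chords. -/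
def S_FVX : Prop := ∀ (M : Surf) (k : ℝ) (z : ℂ → ℝ), M.Mem → 0 < k → k ≤ 1 / 20 → M.Hk k →
  ContDiff ℝ 1 z → (∀ y, 2 ≤ ‖y‖ → z y = 0) →
  ∫ x in cyl (Sq 2) 1 ∩ M.top e3,
    fderiv ℝ z (pr x) (pr (M.N (M.partner e3 x)) - pr (M.N x)) * M.N x 2 ∂M.μ = 0

/-- Integration over the upper sheet. -/
def S_ROI : Prop := ∀ (M : Surf) (om : ℝ) (A : Set ℂ) (f : E → ℝ) (C : ℝ), M.Mem → om ≤ 1 / 10 →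
  MeasurableSet A → Bornology.IsBounded A → (∀ z ∈ A, M.Sheet om z) → Measurable f →
  (∀ x ∈ M.S, |f x| ≤ C) →
  IntegrableOn (fun z => f (pt z (M.hi z))) A ∧
    ∫ x in cyl A 1 ∩ M.top e3, f x * M.N x 2 ∂M.μ = ∫ z in A, f (pt z (M.hi z))

/-- The difference of the horizontal parts of the normals is almost the sum of the gradients. -/
def S_ALG : Prop := ∀ (a b : E) (om : ℝ), ‖a‖ = 1 → ‖b‖ = 1 → om ≤ 1 / 10 → ‖a - e3‖ ≤ om →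
  ‖b + e3‖ ≤ om → (∀ w : ℂ, |slp a w + slp b w - ⟪pr b - pr a, w⟫|
    ≤ 3 * om ^ 2 * ‖pr b - pr a‖ * ‖w‖) ∧ ‖slp a + slp b‖ ≤ 2 * ‖pr b - pr a‖ ∧
    ‖slp a‖ ≤ 2 * om ∧ ‖slp b‖ ≤ 2 * om

/-- Energy bound and weak equation for the midpoint height. -/
def S_WEAK : Prop := ∃ C : ℝ, 0 < C ∧ ∀ (M : Surf) (P : Par) (k β : ℝ) (u : Finset ℂ) (b : ℂ → ℝ)
  (p : ℂ → E) (Ro : Set ℂ) (a : ℂ → ℝ) (Eb B κ : ℝ) (V H : Set ℝ), M.Mem → P.Ok → 0 < k →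
  k ≤ 1 / 20 → P.Λ * β ≤ 1 / 10 → M.Hk k → M.Cover P k β u b p Ro → M.Mid P u p Ro a →
  M.E0 e3 (ball 0 5) ≤ Eb → ∑ y ∈ u, b y ^ 2 ≤ B → MeasurableSet V → MeasurableSet H → 0 ≤ κ →
  volume (I2 \ V) ≤ ENNReal.ofReal κ → volume (I2 \ H) ≤ ENNReal.ofReal κ →
  (∀ z ∈ Ro, DifferentiableAt ℝ a z) ∧ ∫ y in Ro ∩ Sq 2, ‖fderiv ℝ a y‖ ^ 2 ≤ 2 * Eb ∧
    ∀ (z : ℂ → ℝ) (m : ℝ), Test z m →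
      |(∫ y in Ro ∩ {y : ℂ | y.im ∈ H}, p1 a y * p1 z y) +
        ∫ y in Ro ∩ {y : ℂ | y.re ∈ V}, p2 a y * p2 z y|
        ≤ C * (P.om ^ 2 + √κ + P.Λ * √B) * √Eb * m

/-! ### D5 -/

/-- Chords in a slightly tilted direction. -/
def S_CHORD : Prop := ∀ (M : Surf) (P : Par) (k β : ℝ) (y : ℂ) (b : ℝ) (p : E) (g : ℂ) (x : E),
  M.Mem → P.Ok → 0 < k → k ≤ 1 / 20 → P.Λ * β ≤ 1 / 10 → M.Hk k → M.Cell P β y b p →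
  10 * P.Λ₀ * ‖g‖ ≤ 1 → x ∈ M.S → |x 2| < 1 → 0 < ⟪M.N x, dir g⟫ →
  (M.TyR P.om y (4 * b) 1 → pr x ∈ ball y b → x 2 = M.hi (pr x) ∧
    |M.partner (dir g) x 2| ≤ k ∧ |M.partner (dir g) x 2 - M.lo (pr x)| ≤ k * ‖g‖) ∧
  (‖pr x - y‖ ≤ 5 * P.Λ * b → |x 2 - p 2| ≤ 5 * P.Λ * b ∧
    |M.partner (dir g) x 2| ≤ k ∧ |M.partner (dir g) x 2 - p 2| ≤ 25 * P.Λ * b)

/-- The area formula for the oblique projection. -/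
def S_OBL : Prop := ∀ (M : Surf) (g : ℂ) (G : Set E) (F : ℂ → ℝ≥0∞), MeasurableSet G → G ⊆ M.S →
  (∀ x ∈ G, ∀ x' ∈ G, vp g x = vp g x' → x = x') → Measurable F →
  ∫⁻ x in G, F (vp g x) * ENNReal.ofReal |⟪M.N x, dir g⟫| ∂M.μ ≤ ∫⁻ y, F y

/-- The Caccioppoli inequality in a tilted direction with a cutoff on the chosen lines. -/
def S_CUT : Prop := ∃ C : ℝ, 0 < C ∧ ∀ (M : Surf) (k : ℝ) (g : ℂ) (θ c : ℝ) (V H : Set ℝ), M.Mem →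
  0 < k → k ≤ 1 / 20 → M.Hk k → ‖g‖ ≤ 1 / 10 → 0 < θ → θ ≤ 1 / 4 → MeasurableSet V →
  MeasurableSet H → θ / 2 ≤ volume.real (V ∩ Icc θ (2 * θ)) →
  θ / 2 ≤ volume.real (V ∩ Icc (-(2 * θ)) (-θ)) → θ / 2 ≤ volume.real (H ∩ Icc θ (2 * θ)) →
  θ / 2 ≤ volume.real (H ∩ Icc (-(2 * θ)) (-θ)) →
  M.E0 (dir g) (ball 0 (θ / 2)) ≤ C / θ ^ 2 *
    ∫ x in ovL g θ V H ∩ M.top (dir g), (M.alpha (dir g) x - c) ^ 2 * ⟪M.N x, dir g⟫ ∂M.μ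

/-- The midpoints of the tilted chords are close to a plane. -/
def S_EST : Prop := ∃ C : ℝ, 0 < C ∧ ∀ (M : Surf) (P : Par) (k β : ℝ) (u w : Finset ℂ) (b : ℂ → ℝ)
  (p : ℂ → E) (Ro : Set ℂ) (a : ℂ → ℝ) (θ : ℝ) (V H : Set ℝ) (g : ℂ) (c₀ S₁ bs B : ℝ), M.Mem →
  P.Ok → 0 < k → k ≤ 1 / 20 → P.Λ * β ≤ 1 / 10 → M.Hk k → M.Cover P k β u b p Ro →
  M.Mid P u p Ro a → 10 * P.Λ₀ * ‖g‖ ≤ 1 → 0 < θ → θ ≤ 1 / 4 → MeasurableSet V →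
  MeasurableSet H → w ⊆ u → (∀ y ∈ w, b y ≤ bs) → ∑ y ∈ w, b y ^ 2 ≤ B →
  (∀ y ∈ u, y ∉ w → ∀ z ∈ onL θ V H, 5 * P.Λ * b y + k * ‖g‖ < ‖z - y‖) →
  (∀ z ∈ onL θ V H, |a z - c₀ - ⟪g, z⟫| ≤ S₁) →
  ∫ x in ovL g θ V H ∩ M.top (dir g),
      (M.alpha (dir g) x - c₀ / √(1 + ‖g‖ ^ 2)) ^ 2 * ⟪M.N x, dir g⟫ ∂M.μ
    ≤ 2 * (∫ z in onL θ V H, (a z - c₀ - ⟪g, z⟫) ^ 2) + C * P.Λ₀ ^ 2 *
      (k ^ 2 * ‖g‖ ^ 2 + P.Λ ^ 2 * B * (S₁ ^ 2 + P.Λ ^ 2 * bs ^ 2 + k ^ 2 * ‖g‖ ^ 2))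

/-- D5, decay of the energy. -/
def S_DECAY : Prop := ∃ C : ℝ, 0 < C ∧ ∀ ε : ℝ → ℝ, (∀ δ, 0 < δ → 0 < ε δ) → ∀ θ : ℝ, 0 < θ →
  θ ≤ 1 / 4 → ∃ k₀ : ℝ, 0 < k₀ ∧ ∀ k : ℝ, 0 < k → k ≤ k₀ → ∀ M : Surf, M.Mem → M.TypeII ε →
    M.Hk k → ∀ Eb : ℝ, 0 < Eb → Eb ≤ k ^ 2 → M.E0 e3 (ball 0 5) ≤ Eb →
    ∃ g : ℂ, ‖g‖ ≤ C * √Eb ∧ M.E0 (dir g) (ball 0 (θ / 2)) ≤ C * θ ^ 4 * Eb

/-! ### D6 -/

/-- Small energy aligns the frame with the picture. -/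
def S_NEXT : Prop := ∃ C : ℝ, 0 < C ∧ ∀ (M : Surf) (e ν : E) (r k δ β : ℝ), M.Mem → ‖e‖ = 1 →
  0 < r → 0 < k → k ≤ 1 / 10 → 0 < δ → 0 ≤ β → C * (β + δ) ≤ k ^ 4 →
  (∀ x ∈ ball (0 : E) (3 * r), r / 10 < |⟪x, e⟫| → x ∈ M.W') → M.FlatW 0 r δ ν →
  2 - M.Θ 0 (k * r) ≤ k → M.E0 e (ball 0 (3 * r)) ≤ β * r ^ 2 → M.HkF e r k

/-- The start of the iteration. -/
def S_START : Prop := ∃ C : ℝ, 0 < C ∧ ∀ (M : Surf) (ν : E) (r k δ : ℝ), M.Mem → 0 < r → 0 < k →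
  k ≤ 1 / 10 → 0 < δ → δ ≤ k / 2 → M.FlatW 0 r δ ν → 2 - M.Θ 0 (k * r) ≤ k →
  M.HkF ν r k ∧ M.E0 ν (ball 0 (5 * r)) ≤ C * δ ^ 2 * r ^ 2

/-- One step of the iteration. -/
def S_STEP : Prop := ∃ θ C : ℝ, 0 < θ ∧ θ ≤ 1 / 2 ∧ 0 < C ∧ ∀ ε : ℝ → ℝ, (∀ δ, 0 < δ → 0 < ε δ) →
  ∃ k₀ : ℝ, 0 < k₀ ∧ ∀ k : ℝ, 0 < k → k ≤ k₀ → ∃ η e₀ : ℝ, 0 < η ∧ 0 < e₀ ∧
    ∀ (M : Surf) (e : E) (r Eb : ℝ), M.Mem → M.TypeII ε → ‖e‖ = 1 → 0 < r → 0 < Eb → Eb ≤ e₀ →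
      M.HkF e r k → M.E0 e (ball 0 (5 * r)) ≤ Eb * r ^ 2 → 2 - M.Θ 0 (k * (θ * r)) ≤ η →
      ∃ e' : E, ‖e'‖ = 1 ∧ ‖e' - e‖ ≤ C * √Eb ∧ M.HkF e' (θ * r) k ∧
        M.E0 e' (ball 0 (5 * (θ * r))) ≤ Eb / 2 * (θ * r) ^ 2

/-- D6: a direction with vanishing energy. -/
def S_SYMII : Prop := ∀ ε : ℝ → ℝ, (∀ δ, 0 < δ → 0 < ε δ) → ∀ M : Surf, M.Mem → ¬ M.Flat →
  M.TypeII ε → ∃ e : E, ‖e‖ = 1 ∧ M.Cone e (1 / 40) ∧ M.CXg e ∧ M.EdZero e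

/-- The data at infinity. -/
def S_ENDG : Prop := ∀ ε : ℝ → ℝ, (∀ δ, 0 < δ → 0 < ε δ) → ∀ (M : Surf) (a : ℝ), M.Mem →
  M.TypeII ε → Big M e3 a → (∃ x ∈ M.S, x 2 = a) → (∀ A, M.E0 e3 A = 0) →
  (∀ k, 0 < k → k ≤ 1 / 10 → ∃ r₀ : ℝ, 0 < r₀ ∧ ∀ r, r₀ ≤ r → M.HkF e3 r k) → II3 M a

end MW
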