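import Pool.Agent.P.MP_064970_gt.PBase

/-! Statements of section 2 (cones) and of the main steps. -/

open MeasureTheory Set Filter Topology Metric
open scoped RealInnerProductSpace ENNReal ComplexConjugate Real

noncomputable section

namespace MW

/-- G1: almost monotonicity for several points on a short vertical segment. -/
def S_STAD : Prop := ∀ M : Surf, M.Mem → ∀ (n : ℕ) (y : ℂ) (h : Fin n → ℝ) (t₀ t₁ d s₀ s₁ κ τ : ℝ),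
  0 < d → (∀ i, h i ∈ Icc t₀ (t₀ + d)) → t₁ ∈ Icc t₀ (t₀ + d) →
  (∀ i j, i ≠ j → 2 * s₀ ≤ |h i - h j|) → 0 < s₀ → s₀ ≤ s₁ → 0 < κ → κ ≤ 1 →
  d ≤ κ ^ 2 * s₁ / 10 →
  (∀ s ∈ Icc s₀ s₁, ∫ x in ball (pt y t₁) (s + 2 * d), ‖pr (M.N x)‖ ∂M.μ ≤ τ * s ^ 2) →
  ∑ i, M.Θ (pt y (h i)) s₀
    ≤ (1 + κ) ^ 3 * M.Θ (pt y t₁) ((1 + κ) * s₁) + 20 * τ * Real.log (s₁ / s₀)

/-- Small tilt at all scales up to one. -/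
def Surf.Good (M : Surf) (τ : ℝ) (x : E) : Prop :=
  ∀ s : ℝ, 0 < s → s ≤ 1 → ∫ z in ball x s, ‖pr (M.N z)‖ ^ 2 ∂M.μ ≤ τ ^ 2 * s ^ 2

/-- G2: most points are good. -/
def S_VIT : Prop := ∀ M : Surf, M.Mem → ∀ τ : ℝ, 0 < τ → IsClosed {x | M.Good τ x} ∧
  ∀ R : ℝ, 0 < R → M.μ.real (ball 0 R \ {x | M.Good τ x})
    ≤ 200 / τ ^ 2 * ∫ z in ball 0 (R + 1), ‖pr (M.N z)‖ ^ 2 ∂M.μ

/-- G2: two close good points on a vertical line have density almost two together; there are no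
three. -/
def S_GOOD : Prop :=
  (∀ ε : ℝ, 0 < ε → ∃ τ Λ : ℝ, 0 < τ ∧ 1 ≤ Λ ∧ ∀ M : Surf, M.Mem → ∀ (y : ℂ) (s t : ℝ), s ≠ t →
    pt y s ∈ M.S → pt y t ∈ M.S → M.Good τ (pt y s) → Λ * |s - t| ≤ 1 →
    2 - ε ≤ M.Θ (pt y s) (Λ * |s - t|)) ∧
  ∃ τ Λ : ℝ, 0 < τ ∧ 1 ≤ Λ ∧ ∀ M : Surf, M.Mem → ∀ (y : ℂ) (s t u : ℝ), s < t → t < u →
    pt y s ∈ M.S → pt y t ∈ M.S → pt y u ∈ M.S → M.Good τ (pt y s) → M.Good τ (pt y t) →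
    M.Good τ (pt y u) → Λ * (u - s) ≤ 1 → False

/-- The points where the densities converge to `θ` at all scales. -/
def spine (U : Filter ℕ) (Mk : ℕ → Surf) (θ : ℝ) : Set E :=
  {x | ∀ r, 0 < r → Tendsto (fun k => (Mk k).Θ x r) U (𝓝 θ)}

/-- The hypotheses of the structure theorem G3. -/
structure StrHyp (U : Filter ℕ) (Mk : ℕ → Surf) (θ : ℝ) : Prop where
  mem : ∀ k, (Mk k).Mem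
  one_lt : 1 < θ
  le_two : θ ≤ 2
  sup : ∀ ε, 0 < ε → ∀ᶠ k in U, ∀ p r, 0 < r → (Mk k).Θ p r ≤ θ + ε
  zero : (0 : E) ∈ spine U Mk θ
  bad : ∀ x, x ∉ limO U Mk → x ∈ spine U Mk θ

/-- The spine is a subspace along which the normals are almost orthogonal. -/
def S_STR0 : Prop := ∀ (U : Ultrafilter ℕ) (Mk : ℕ → Surf) (θ : ℝ), (∀ k, (Mk k).Mem) →
  (0 : E) ∈ spine U Mk θ →
  (∀ R, Tendsto (fun k => ∫ x in ball 0 R, ⟪x, (Mk k).N x⟫ ^ 2 ∂(Mk k).μ) U (𝓝 0)) ∧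
  ∃ V : Submodule ℝ E, (V : Set E) = spine U Mk θ ∧
    ∀ v ∈ V, ∀ R, Tendsto (fun k => ∫ x in ball 0 R, ⟪v, (Mk k).N x⟫ ^ 2 ∂(Mk k).μ) U (𝓝 0)

/-- If the bad set lies on a line, the measures converge across it. -/
def S_TUBE : Prop := ∀ (U : Ultrafilter ℕ) (Mk : ℕ → Surf) (M : Surf) (e : E), (∀ k, (Mk k).Mem) →
  M.Bd → Conv (U : Filter ℕ) Mk M → ‖e‖ = 1 → (∀ x, x ≠ ⟪x, e⟫ • e → x ∈ M.O) →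
  M.μ {x | x = ⟪x, e⟫ • e} = 0 ∧
  (∀ (F : E × E → ℝ) (K : Set E), Continuous F → IsCompact K → (∀ x n, x ∉ K → F (x, n) = 0) →
    Tendsto (fun k => ∫ x, F (x, (Mk k).N x) ∂(Mk k).μ) U (𝓝 (∫ x, F (x, M.N x) ∂M.μ))) ∧
  (∀ (p : E) (r : ℝ), 0 < r → Tendsto (fun k => (Mk k).Θ p r) U (𝓝 (M.Θ p r))) ∧
  (∀ g : E × E → ℝ, Continuous g →
    (∀ R, Tendsto (fun k => ∫ x in ball 0 R, g (x, (Mk k).N x) ^ 2 ∂(Mk k).μ) U (𝓝 0)) →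
    ∀ x ∈ M.S, g (x, M.N x) = 0)

/-- A cone with only the vertex removed has density at most one. -/
def S_STR1 : Prop := ∀ M : Surf, M.Bd → (∀ x, x ≠ 0 → x ∈ M.O) →
  (∀ x ∈ M.S, ⟪x, M.N x⟫ = 0) → M.Θ 0 1 ≤ 1

/-- `M` is, off the vertical axis, the union of the half planes over the rays through `T`. -/
structure Surf.Halves (M : Surf) (T : Finset ℂ) (σ : ℂ → ℝ) : Prop where
  off : ∀ x, pr x ≠ 0 → x ∈ M.O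
  unit : ∀ w ∈ T, ‖w‖ = 1 ∧ (σ w = 1 ∨ σ w = -1)
  mem : ∀ x, pr x ≠ 0 → (x ∈ M.S ↔ ∃ w ∈ T, ∃ s : ℝ, 0 < s ∧ pr x = s • w)
  nrm : ∀ w ∈ T, ∀ s t : ℝ, 0 < s → M.N (pt (s • w) t) = pt (σ w • (Complex.I * w)) 0

/-- A cylindrical cone is a finite union of half planes. -/
def S_HALF : Prop := ∀ M : Surf, M.Bd → (∀ x, pr x ≠ 0 → x ∈ M.O) →
  (∀ x ∈ M.S, M.N x 2 = 0 ∧ ⟪x, M.N x⟫ = 0) → ∃ (T : Finset ℂ) (σ : ℂ → ℝ), M.Halves T σ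

/-- The measure of a union of half planes. -/
def S_HALFM : Prop := ∀ (M : Surf) (T : Finset ℂ) (σ : ℂ → ℝ), M.Bd → M.Halves T σ →
  (∀ g : E → ℝ, Continuous g → HasCompactSupport g → ∀ F : E → E → ℝ,
    (∀ n, Continuous fun x => F x n) →
    ∫ x, g x * F x (M.N x) ∂M.μ = ∑ w ∈ T, ∫ s in Ioi (0 : ℝ), ∫ t : ℝ,
      g (pt (s • w) t) * F (pt (s • w) t) (pt (σ w • (Complex.I * w)) 0)) ∧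
  ∀ t r : ℝ, 0 < r → M.Θ (pt 0 t) r = T.card / 2

/-- `M` is, off the axis, the union of two transversal planes with the checkerboard pattern. -/
structure Surf.CrossLim (M : Surf) (ν₁ ν₂ : E) : Prop where
  unit₁ : ‖ν₁‖ = 1
  unit₂ : ‖ν₂‖ = 1
  ang : |⟪ν₁, ν₂⟫| < 1
  off : ∀ x, ⟪x, ν₁⟫ ≠ 0 ∨ ⟪x, ν₂⟫ ≠ 0 → x ∈ M.O
  mem : ∀ x, ⟪x, ν₁⟫ ≠ 0 ∨ ⟪x, ν₂⟫ ≠ 0 → (x ∈ M.S ↔ ⟪x, ν₁⟫ = 0 ∨ ⟪x, ν₂⟫ = 0)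
  pos₁ : ∀ x, ⟪x, ν₁⟫ = 0 → 0 < ⟪x, ν₂⟫ → M.N x = ν₁
  neg₁ : ∀ x, ⟪x, ν₁⟫ = 0 → ⟪x, ν₂⟫ < 0 → M.N x = -ν₁
  pos₂ : ∀ x, ⟪x, ν₂⟫ = 0 → 0 < ⟪x, ν₁⟫ → M.N x = ν₂
  neg₂ : ∀ x, ⟪x, ν₂⟫ = 0 → ⟪x, ν₁⟫ < 0 → M.N x = -ν₂
  pat : ∀ x, (⟪x, ν₁⟫ * ⟪x, ν₂⟫ < 0 → x ∈ M.W) ∧ (0 < ⟪x, ν₁⟫ * ⟪x, ν₂⟫ → x ∈ M.W')

/-- Three or four balanced half planes with two sides form a cross. -/
def S_COUNT : Prop := ∀ (M : Surf) (T : Finset ℂ) (σ : ℂ → ℝ), M.Halves T σ →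
  (T.card = 3 ∨ T.card = 4) → ∑ w ∈ T, w = 0 →
  T.card = 4 ∧ ∃ ν₁ ν₂ : E, ν₁ 2 = 0 ∧ ν₂ 2 = 0 ∧ M.CrossLim ν₁ ν₂

/-- Densities of a cross. -/
def S_XDEN : Prop := ∀ (M : Surf) (ν₁ ν₂ : E), M.Bd → M.CrossLim ν₁ ν₂ → ∀ (q : E) (r : ℝ), 0 < r →
  M.Θ q r = max (1 - ⟪q, ν₁⟫ ^ 2 / r ^ 2) 0 ^ 4 + max (1 - ⟪q, ν₂⟫ ^ 2 / r ^ 2) 0 ^ 4

/-- Convergence to a cross gives the cross pictures. -/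
def S_XLIM : Prop := ∀ (U : Ultrafilter ℕ) (Mk : ℕ → Surf) (M : Surf) (ν₁ ν₂ : E),
  (∀ k, (Mk k).Mem) → M.Bd → Conv (U : Filter ℕ) Mk M → M.CrossLim ν₁ ν₂ →
  ∀ δ, 0 < δ → δ ≤ 1 → ∀ᶠ k in (U : Filter ℕ), (Mk k).Cross 0 1 δ ν₁ ν₂

/-- G3 when the spine is the vertical axis. -/
def S_STR2 : Prop := ∀ (U : Ultrafilter ℕ) (Mk : ℕ → Surf) (θ : ℝ), StrHyp U Mk θ →
  spine U Mk θ = {x | pr x = 0} → θ = 2 ∧ ∃ ν₁ ν₂, |⟪ν₁, ν₂⟫| < 1 ∧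
    ∀ δ, 0 < δ → δ ≤ 1 → ∀ᶠ k in (U : Filter ℕ), (Mk k).Cross 0 1 δ ν₁ ν₂

/-- Small tilt and small support function put the surfaces in thin slabs. -/
def S_STR3A : Prop := ∀ (U : Ultrafilter ℕ) (Mk : ℕ → Surf), (∀ k, (Mk k).Mem) →
  (∀ R, Tendsto (fun k => ∫ x in ball 0 R, ⟪x, (Mk k).N x⟫ ^ 2 ∂(Mk k).μ) U (𝓝 0)) →
  (∀ R, Tendsto (fun k => ∫ x in ball 0 R, ⟪ex, (Mk k).N x⟫ ^ 2 ∂(Mk k).μ) U (𝓝 0)) →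
  (∀ R, Tendsto (fun k => ∫ x in ball 0 R, ⟪ey, (Mk k).N x⟫ ^ 2 ∂(Mk k).μ) U (𝓝 0)) →
  (∀ R, Tendsto (fun k => ∫ x in ball 0 R, ‖pr ((Mk k).N x)‖ ^ 2 ∂(Mk k).μ) U (𝓝 0)) ∧
  ∀ R δ, 0 < δ → ∀ᶠ k in (U : Filter ℕ), ∀ x ∈ (Mk k).S ∩ ball 0 R, |x 2| ≤ δ

/-- The multiplicity of a flat limit with density above one is two, and both sides of the plane
have the same colour. -/
def S_STR3B : Prop := ∀ (U : Ultrafilter ℕ) (Mk : ℕ → Surf) (θ : ℝ), (∀ k, (Mk k).Mem) → 1 < θ →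
  θ ≤ 2 → (∀ ε, 0 < ε → ∀ᶠ k in (U : Filter ℕ), ∀ p r, 0 < r → (Mk k).Θ p r ≤ θ + ε) →
  Tendsto (fun k => (Mk k).Θ 0 1) U (𝓝 θ) →
  Tendsto (fun k => ∫ x in ball 0 2, ‖pr ((Mk k).N x)‖ ^ 2 ∂(Mk k).μ) U (𝓝 0) →
  (∀ δ, 0 < δ → ∀ᶠ k in (U : Filter ℕ), ∀ x ∈ (Mk k).S ∩ ball 0 2, |x 2| ≤ δ) →
  θ = 2 ∧ ∀ᶠ k in (U : Filter ℕ), (e3 ∈ (Mk k).W ↔ -e3 ∈ (Mk k).W)

/-- G3 when the spine contains the horizontal plane. -/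
def S_STR3 : Prop := ∀ (U : Ultrafilter ℕ) (Mk : ℕ → Surf) (θ : ℝ), StrHyp U Mk θ →
  (∀ x : E, x 2 = 0 → x ∈ spine U Mk θ) → θ = 2 ∧
    ((∀ δ, 0 < δ → δ ≤ 1 → ∀ᶠ k in (U : Filter ℕ), (Mk k).FlatW 0 1 δ e3) ∨
      ∀ δ, 0 < δ → δ ≤ 1 → ∀ᶠ k in (U : Filter ℕ), (Mk k).swap.FlatW 0 1 δ e3)

/-- G3, the structure theorem. -/
def S_STR : Prop := ∀ (U : Ultrafilter ℕ) (Mk : ℕ → Surf) (θ : ℝ), StrHyp U Mk θ →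
  θ = 2 ∧ Tri U Mk (fun _ => 0) (fun _ => 1)

/-- At a bad point a nonflat member bubbles off. -/
def S_BAD : Prop := ∀ (U : Ultrafilter ℕ) (Mk : ℕ → Surf), (∀ k, (Mk k).Mem) → ∀ x : E,
  x ∉ limO U Mk → ∃ M' : Surf, M'.Mem ∧ ¬ M'.Flat ∧ ∀ (q : E) (s r ε : ℝ), 0 < s → 0 < r → 0 < ε →
    ∀ᶠ k in (U : Filter ℕ), M'.Θ q s - ε ≤ (Mk k).Θ x r

/-- G4: a nonflat member has density two at infinity. -/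
def S_GAP : Prop := ∀ M : Surf, M.Mem → ¬ M.Flat → ∀ p : E, Tendsto (M.Θ p) atTop (𝓝 2)

/-- Bad points have density two. -/
def S_COR : Prop := ∀ (U : Ultrafilter ℕ) (Mk : ℕ → Surf), (∀ k, (Mk k).Mem) → ∀ x : E,
  x ∉ limO U Mk → x ∈ spine U Mk 2

/-- G5. -/
def S_DEC : Prop := ∀ ε : ℝ, 0 < ε → ∃ Λ : ℝ, 1 ≤ Λ ∧ ∀ M : Surf, M.Mem → ∀ (p : E) (r s : ℝ),
  0 < r → Λ * r ≤ s → 3 / 2 ≤ M.Θ p r → 2 - M.Θ p s ≤ ε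

/-- G6 in limit form. -/
def S_TRI : Prop := ∀ (U : Ultrafilter ℕ) (Mk : ℕ → Surf) (pk : ℕ → E) (ρk : ℕ → ℝ),
  (∀ k, (Mk k).Mem) → (∀ k, 0 < ρk k) → Tendsto (fun k => (Mk k).Θ (pk k) (ρk k)) U (𝓝 2) →
  Tri U Mk pk ρk

/-- G6. -/
def S_CONE : Prop := ∀ δ : ℝ, 0 < δ → δ ≤ 1 → ∃ ε : ℝ, 0 < ε ∧ ∀ M : Surf, M.Mem →
  ∀ (p : E) (ρ : ℝ), 0 < ρ → 2 - M.Θ p ρ ≤ ε →
    (∃ ν, M.FlatW p ρ δ ν) ∨ (∃ ν, M.swap.FlatW p ρ δ ν) ∨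
      ∃ ν₁ ν₂, |⟪ν₁, ν₂⟫| < 1 ∧ M.Cross p ρ δ ν₁ ν₂

/-- Proposition I (section 4). -/
def S_PROPI : Prop := ∀ γ : ℝ, γ < 1 → ∃ δ ε : ℝ, 0 < δ ∧ δ ≤ 1 ∧ 0 < ε ∧ ∀ M : Surf, M.Mem →
  ∀ (p : E) (ρ : ℝ) (ν₁ ν₂ : E), 0 < ρ → |⟪ν₁, ν₂⟫| ≤ γ → 2 - M.Θ p ρ ≤ ε →
    M.Cross p ρ δ ν₁ ν₂ → IsScherk M.S

/-- G7. -/
def S_TYPE : Prop := ∃ ε : ℝ → ℝ, (∀ δ, 0 < δ → 0 < ε δ) ∧ ∀ M : Surf, M.Mem → ¬ IsScherk M.S →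
  M.TypeII ε ∨ M.swap.TypeII ε

/-- Case II (section 5): one mirror plane and the data at infinity. -/
def S_CASEII : Prop := ∀ ε : ℝ → ℝ, (∀ δ, 0 < δ → 0 < ε δ) → ∀ M : Surf, M.Mem →
  IsPreconnected M.S → ¬ M.Flat → M.TypeII ε →
  ∃ (M' : Surf) (A : E ≃ₗᵢ[ℝ] E) (b : E) (a : ℝ), IsSim M M' A 1 b ∧ II3 M' a

/-- The classification of connected members. -/
def S_MAIN : Prop := ∀ M : Surf, M.Mem → IsPreconnected M.S → M.S.Nonempty →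
  IsPlane M.S ∨ IsCatenoid M.S ∨ IsScherk M.S

end MW
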