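import Pool.Agent.P.MP_064970_gt.SG

/-! Statements of section 3 (chords). -/

open MeasureTheory Set Filter Topology Metric
open scoped RealInnerProductSpace ENNReal ComplexConjugate Real

noncomputable section

namespace MW

/-- Bottom points correspond to top points. -/
def S_BIJ : Prop := ∀ M : Surf, M.Mem → ∀ (K : Set ℂ) (T₀ T : ℝ), MeasurableSet K →
  Bornology.IsBounded K → 0 < T₀ → T₀ < T → M.Slab K T₀ T →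
  (∀ (H : E → ℝ) (C : ℝ), Measurable H → (∀ x ∈ M.S ∩ cyl K T, |H x| ≤ C) →
    ∫ x in cyl K T ∩ M.top (-e3), H x * |M.N x 2| ∂M.μ
      = ∫ x in cyl K T ∩ M.top e3, H (M.partner e3 x) * M.N x 2 ∂M.μ) ∧
  ∀ᵐ x ∂M.μ, x ∈ cyl K T → 0 < M.N x 2 → M.N (M.partner e3 x) 2 < 0

/-- T1, in the bounded form `(1 - a·b)/|b₃| ≥ ed + 2 a₃`. -/
def S_TIL : Prop := ∀ M : Surf, M.Mem → ∀ (η : ℂ → ℝ) (T₀ T : ℝ), ContDiff ℝ 1 η →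
  HasCompactSupport η → (∀ y, 0 ≤ η y) → 0 < T₀ → T₀ < T → M.Slab (tsupport η) T₀ T →
  ∫ x in lay T ∩ M.top e3, M.ell e3 x * fderiv ℝ η (pr x) (pr (M.N x)) * M.N x 2 ∂M.μ
    ≤ ∫ x in lay T, η (pr x) ∂M.μ
      - ∫ x in lay T ∩ M.top e3, η (pr x) * (M.edx e3 x + 2 * M.N x 2) * M.N x 2 ∂M.μ

/-- T2, the chord inequality. -/
def S_CI : Prop := ∀ M : Surf, M.Mem → ∀ (η : ℂ → ℝ) (T₀ T c : ℝ), ContDiff ℝ 1 η →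
  HasCompactSupport η → (∀ y, 0 ≤ η y) → 0 < T₀ → T₀ < T → M.Slab (tsupport η) T₀ T →
  ∫ x in lay T ∩ M.top e3, η (pr x) * M.edx e3 x * M.N x 2 ∂M.μ
    ≤ ∫ x in lay T ∩ M.top e3,
      |M.alpha e3 x - c| * √(2 * M.edx e3 x) * ‖fderiv ℝ η (pr x)‖ * M.N x 2 ∂M.μ

/-- T2, the Caccioppoli inequality for chords. -/
def S_CAC : Prop := ∀ M : Surf, M.Mem → ∀ (η : ℂ → ℝ) (T₀ T c : ℝ), ContDiff ℝ 1 η →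
  HasCompactSupport η → 0 < T₀ → T₀ < T → M.Slab (tsupport η) T₀ T →
  ∫ x in lay T ∩ M.top e3, η (pr x) ^ 2 * M.edx e3 x * M.N x 2 ∂M.μ
    ≤ 8 * ∫ x in lay T ∩ M.top e3,
      (M.alpha e3 x - c) ^ 2 * ‖fderiv ℝ η (pr x)‖ ^ 2 * M.N x 2 ∂M.μ

/-- The Caccioppoli inequality for product cutoffs with measurable derivatives. -/
def S_CACO : Prop := ∀ M : Surf, M.Mem → ∀ (l₁ l₂ : ℂ →L[ℝ] ℝ) (g₁ g₂ : ℝ → ℝ) (R B T₀ T c : ℝ),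
  (∀ y, l₁ y = 0 → l₂ y = 0 → y = 0) → Measurable g₁ → Measurable g₂ → 0 < R →
  (∀ s, |g₁ s| ≤ B) → (∀ s, |g₂ s| ≤ B) → (∀ s, R ≤ |s| → g₁ s = 0) → (∀ s, R ≤ |s| → g₂ s = 0) →
  ∫ s in (-R)..R, g₁ s = 0 → ∫ s in (-R)..R, g₂ s = 0 → 0 < T₀ → T₀ < T →
  M.Slab {y | |l₁ y| ≤ R ∧ |l₂ y| ≤ R} T₀ T →
  ∫ x in lay T ∩ M.top e3, ((∫ s in (-R)..(l₁ (pr x)), g₁ s) * ∫ s in (-R)..(l₂ (pr x)), g₂ s) ^ 2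
      * M.edx e3 x * M.N x 2 ∂M.μ
    ≤ 8 * ∫ x in lay T ∩ M.top e3, (M.alpha e3 x - c) ^ 2 *
      ‖(g₁ (l₁ (pr x)) * ∫ s in (-R)..(l₂ (pr x)), g₂ s) • l₁
        + ((∫ s in (-R)..(l₁ (pr x)), g₁ s) * g₂ (l₂ (pr x))) • l₂‖ ^ 2 * M.N x 2 ∂M.μ

/-- T3, almost positivity of the flux. -/
def S_PI : Prop := ∀ M : Surf, M.Mem → ∀ (η : ℂ → ℝ) (T₀ T : ℝ), ContDiff ℝ 1 η →
  HasCompactSupport η → (∀ y, 0 ≤ η y) → 0 < T₀ → T₀ < T → M.Slab (tsupport η) T₀ T →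
  -((∫ x in lay T, η (pr x) ∂M.μ) + (∫ y, η y)
      + 4 * T₀ * ∫ x in lay T, ‖fderiv ℝ η (pr x)‖ ∂M.μ) / T ≤ M.Flux T η

/-- T4, lower bound for the energy. -/
def S_ELB : Prop := ∀ M : Surf, M.Mem → ∀ (K : Set ℂ) (T₀ T : ℝ) (ν : E), MeasurableSet K →
  Bornology.IsBounded K → 0 < T₀ → T₀ < T → M.Slab K T₀ T → ‖ν‖ = 1 → wedge ν e3 ≤ 1 / 2 →
  wedge ν e3 ^ 2 * M.μ.real (cyl K T) / 8 - 100 * ∫ x in cyl K T, wedge (M.N x) ν ^ 2 ∂M.μ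
    ≤ M.E0 e3 (cyl K T)

/-- Vanishing energy in the limit. -/
def S_EDZ : Prop := ∀ (U : Ultrafilter ℕ) (Mk : ℕ → Surf) (M : Surf) (ek : ℕ → E) (e : E),
  (∀ k, (Mk k).Mem) → M.Mem → Conv (U : Filter ℕ) Mk M → (∀ k, ‖ek k‖ = 1) → Tendsto ek U (𝓝 e) →
  M.CXg e → (∀ R, Tendsto (fun k => (Mk k).E0 (ek k) (ball 0 R)) U (𝓝 0)) → M.EdZero e

/-- Strong maximum principle for the Gauss map. -/
def S_STRICT : Prop := ∀ (M : Surf) (x e : E), x ∈ M.S → ‖e‖ = 1 →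
  (∀ᶠ y in 𝓝[M.S] x, 0 ≤ ⟪M.N y, e⟫) → ⟪M.N x, e⟫ = 0 → ∀ᶠ y in 𝓝[M.S] x, M.N y = M.N x

/-- The midpoint of a regular chord lies on a mirror plane. -/
def S_MIRR : Prop := ∀ (M : Surf) (x : E), M.Mem → IsPreconnected M.S → M.CXg e3 → M.EdZero e3 →
  x ∈ M.S → M.RegLine e3 x → 0 < M.N x 2 →
  (∀ z, refl e3 (M.alpha e3 x) z ∈ M.S ↔ z ∈ M.S) ∧ (∀ z, refl e3 (M.alpha e3 x) z ∈ M.W ↔ z ∈ M.W) ∧
  (∀ z, refl e3 (M.alpha e3 x) z ∈ M.W' ↔ z ∈ M.W') ∧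
  ∀ z ∈ M.S, M.N (refl e3 (M.alpha e3 x) z) = mirror e3 (M.N z)

/-- T5. -/
def S_SYM : Prop := ∀ (M : Surf) (e : E), M.Mem → IsPreconnected M.S → ¬ M.Flat → ‖e‖ = 1 →
  M.CXg e → M.EdZero e → ∃ a, M.Bigraph e a

end MW
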