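import Pool.Agent.P.MP_064970_gt.ST

/-! Statements for the proof of T1 (regularised chord length). -/

open MeasureTheory Set Filter Topology Metric
open scoped RealInnerProductSpace ENNReal ComplexConjugate Real

noncomputable section

namespace MW

/-- The cutoff: one on `(-∞, 1/2]`, zero on `[1, ∞)`, decreasing. -/
def kk (s : ℝ) : ℝ := 1 - Real.smoothTransition (2 * s - 1)

/-- Survival factor along a line. -/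
def Pk (K : ℝ → ℝ) (s t : ℝ) : ℝ := Real.exp (-∫ σ in s..t, K σ)

/-- Regularised length below `t`. -/
def Lk (K : ℝ → ℝ) (T t : ℝ) : ℝ := ∫ s in (-T)..t, Pk K s t

/-- Regularised length as a function in space. -/
def LE (K : E → ℝ) (T : ℝ) (x : E) : ℝ := Lk (fun σ => K (pt (pr x) σ)) T (x 2)

/-- The positive term on a line. -/
def PosK (K kp : ℝ → ℝ) (ν : ℝ → E) (W : Set ℝ) (T : ℝ) : ℝ :=
  ∫ σ in Ioo (-T) T, kp σ * Lk K T σ * ∫ t in W ∩ Ioi σ, K t * Pk K σ t * (1 - ⟪ν σ, ν t⟫)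

/-- The killing rate. -/
def K1 (d : ℝ) (δ : ℝ) : ℝ := δ⁻¹ ^ 2 * kk (d / δ)

/-- Minus its derivative with respect to `d`. -/
def K2 (d : ℝ) (δ : ℝ) : ℝ := -(δ⁻¹ ^ 3 * deriv kk (d / δ))

/-- Distance down to the next zero of `d`, or to `-T`. -/
def len (d : ℝ → ℝ) (T t : ℝ) : ℝ := t - sSup (insert (-T) {s | s ∈ Ioo (-T) t ∧ d s = 0})

/-- Distance down to the next point of `S`, or to the height `-T`. -/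
def Surf.ellT (M : Surf) (T : ℝ) (x : E) : ℝ :=
  x 2 - sSup (insert (-T) {s | s ∈ Ioo (-T) (x 2) ∧ pt (pr x) s ∈ M.S})

/-- A defining function and its normalised gradient, in the ball of radius `R`. -/
structure DefFn (M : Surf) (R : ℝ) (d : E → ℝ) (ν : E → E) (δ₀ : ℝ) : Prop where
  pos : 0 < δ₀
  cd : ContDiff ℝ 2 d
  cν : ContDiff ℝ 1 ν
  le : ∀ x, ‖ν x‖ ≤ 1
  W : ∀ x, 0 < d x ↔ x ∈ M.W
  W' : ∀ x, d x < 0 ↔ x ∈ M.W'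
  grad : ∀ x ∈ closedBall (0 : E) R, |d x| ≤ δ₀ → ‖ν x‖ = 1 ∧ 0 < ‖fderiv ℝ d x‖ ∧
    ∀ v, fderiv ℝ d x v = ‖fderiv ℝ d x‖ * ⟪ν x, v⟫
  onS : ∀ x ∈ M.S ∩ closedBall (0 : E) R, ν x = -M.N x ∧ dv ν x = 0

/-- A global defining function. -/
def S_DEF0 : Prop := ∀ M : Surf, M.Mem → ∃ d : E → ℝ, ContDiff ℝ 2 d ∧ (∀ x, 0 < d x ↔ x ∈ M.W) ∧
  (∀ x, d x < 0 ↔ x ∈ M.W') ∧ ∀ x ∈ M.S, ∃ c : ℝ, 0 < c ∧ ∀ v, fderiv ℝ d x v = -(c * ⟪M.N x, v⟫)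

/-- The defining function with its unit field. -/
def S_DEFF : Prop := ∀ M : Surf, M.Mem → ∀ R : ℝ, ∃ (d : E → ℝ) (ν : E → E) (δ₀ : ℝ),
  DefFn M R d ν δ₀

/-- The derivative of the regularised length. -/
def S_LDER : Prop := ∀ (K : E → ℝ) (T : ℝ), ContDiff ℝ 1 K → ContDiff ℝ 1 (LE K T) ∧ ∀ x v : E,
  fderiv ℝ (LE K T) x v = v 2 * Pk (fun σ => K (pt (pr x) σ)) (-T) (x 2)
    - ∫ s in (-T)..(x 2), Pk (fun σ => K (pt (pr x) σ)) s (x 2) *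
      ∫ σ in s..(x 2), fderiv ℝ K (pt (pr x) σ) v

/-- The inequality on every line. -/
def S_LINE1 : Prop := ∀ (K kp : ℝ → ℝ) (ν : ℝ → E) (W : Set ℝ) (T : ℝ), 0 < T → Continuous K →
  Continuous kp → Continuous ν → (∀ t, 0 ≤ K t) → (∀ t, 0 ≤ kp t) → (∀ t, ‖ν t‖ ≤ 1) →
  MeasurableSet W → W ⊆ Ioo (-T) T → (∀ t ∈ Ioo (-T) T, kp t ≠ 0 → t ∈ W) →
  (∫ t in W, (-(kp t * Lk K T t) + K t * (ν t 2 * Pk K (-T) t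
      + ∫ s in (-T)..t, Pk K s t * ∫ σ in s..t, kp σ * ⟪ν σ, ν t⟫))
    ≤ -PosK K kp ν W T + ∫ t in W, K t * Pk K (-T) t) ∧
  0 ≤ PosK K kp ν W T ∧ (∫ t in W, K t * Pk K (-T) t ≤ 1) ∧ (∫ t in W, K t * Lk K T t ≤ 2 * T) ∧
  (∀ t, -T ≤ t → 0 ≤ Lk K T t) ∧
  ∀ a lm : ℝ, -T ≤ a → (∀ t ∈ Icc (-T) a, lm ≤ K t) → W ⊆ Ici a →
    ∫ t in W, K t * Pk K (-T) t ≤ Real.exp (-(lm * (a + T)))

/-- The limit of the main term on a regular line. -/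
def S_LINE2A : Prop := ∀ (d φ : ℝ → ℝ) (T : ℝ), 0 < T → ContDiff ℝ 1 d → Continuous φ →
  d (-T) ≠ 0 → d T ≠ 0 → (∀ t ∈ Icc (-T) T, d t = 0 → deriv d t ≠ 0) →
  Tendsto (fun δ : ℝ => ∫ t in {t | t ∈ Ioo (-T) T ∧ 0 < d t},
      K1 (d t) δ * Lk (fun σ => K1 (d σ) δ) T t * φ t) (𝓝[>] 0)
    (𝓝 (∑ᶠ t ∈ {t | t ∈ Ioo (-T) T ∧ d t = 0 ∧ deriv d t < 0}, len d T t * φ t))

/-- The lower limit of the positive term on a regular line. -/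
def S_LINE2B : Prop := ∀ (d g : ℝ → ℝ) (ν : ℝ → E) (T δ₀ : ℝ), 0 < T → 0 < δ₀ → ContDiff ℝ 1 d →
  Continuous g → Continuous ν → (∀ t, 0 ≤ g t) → (∀ t, ‖ν t‖ ≤ 1) → d (-T) < 0 → d T ≠ 0 →
  (∀ t ∈ Icc (-T) T, d t = 0 → deriv d t ≠ 0) →
  (∀ t ∈ Icc (-T) T, |d t| ≤ δ₀ → deriv d t = g t * ν t 2) →
  ∀ ε : ℝ, 0 < ε → ∀ᶠ δ in 𝓝[>] (0 : ℝ),
    (∑ᶠ t ∈ {t | t ∈ Ioo (-T) T ∧ d t = 0 ∧ deriv d t < 0},
      (1 - ⟪ν t, ν (t - len d T t)⟫) / |ν (t - len d T t) 2|) - ε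
    ≤ PosK (fun σ => K1 (d σ) δ) (fun σ => K2 (d σ) δ * g σ) ν {t | t ∈ Ioo (-T) T ∧ 0 < d t} T

/-- The part of the line over `y` in `W`. -/
def Wy (d : E → ℝ) (T : ℝ) (y : ℂ) : Set ℝ := {t | t ∈ Ioo (-T) T ∧ 0 < d (pt y t)}

/-- The main term on the line over `y`. -/
def Ay (d : E → ℝ) (ν : E → E) (η : ℂ → ℝ) (T δ : ℝ) (y : ℂ) : ℝ :=
  ∫ t in Wy d T y, K1 (d (pt y t)) δ * Lk (fun σ => K1 (d (pt y σ)) δ) T t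
    * fderiv ℝ η y (pr (ν (pt y t)))

/-- The positive term on the line over `y`. -/
def Py (d : E → ℝ) (ν : E → E) (T δ : ℝ) (y : ℂ) : ℝ :=
  PosK (fun σ => K1 (d (pt y σ)) δ) (fun σ => K2 (d (pt y σ)) δ * ‖fderiv ℝ d (pt y σ)‖)
    (fun σ => ν (pt y σ)) (Wy d T y) T

/-- The remainder on the line over `y`. -/
def Ry (d : E → ℝ) (T δ : ℝ) (y : ℂ) : ℝ :=
  ∫ t in Wy d T y, K1 (d (pt y t)) δ * Pk (fun σ => K1 (d (pt y σ)) δ) (-T) t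

/-- The setting of T1: the bands over the support of `η` miss `S`. -/
structure T1Hyp (M : Surf) (η : ℂ → ℝ) (T₀ T R : ℝ) (d : E → ℝ) (ν : E → E) (δ₀ : ℝ) : Prop where
  mem : M.Mem
  cη : ContDiff ℝ 1 η
  supp : HasCompactSupport η
  nonneg : ∀ y, 0 ≤ η y
  pos : 0 < T₀
  lt : T₀ < T
  band : ∀ y ∈ tsupport η, ∀ t : ℝ, T₀ ≤ |t| → |t| ≤ T → pt y t ∉ M.S
  box : ∀ y ∈ tsupport η, ∀ t : ℝ, |t| ≤ T → pt y t ∈ closedBall (0 : E) R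
  fn : DefFn M R d ν δ₀

/-- Measurability and bounds of the line terms. -/
def S_TILM : Prop := ∀ (d : E → ℝ) (ν : E → E) (η : ℂ → ℝ) (T δ : ℝ), ContDiff ℝ 2 d →
  Continuous ν → (∀ x, ‖ν x‖ ≤ 1) → ContDiff ℝ 1 η → HasCompactSupport η → 0 < T → 0 < δ →
  ContDiff ℝ 2 (fun x => K1 (d x) δ) ∧ Continuous (fun x => K2 (d x) δ) ∧
  (∀ s, 0 ≤ K1 s δ ∧ 0 ≤ K2 s δ ∧ (s ≤ δ / 2 → K1 s δ = δ⁻¹ ^ 2 ∧ K2 s δ = 0) ∧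
    (δ ≤ s → K1 s δ = 0 ∧ K2 s δ = 0)) ∧
  (∀ x v, fderiv ℝ (fun x => K1 (d x) δ) x v = -(K2 (d x) δ * fderiv ℝ d x v)) ∧
  Measurable (Ay d ν η T δ) ∧ Measurable (Py d ν T δ) ∧ Measurable (Ry d T δ) ∧
  Integrable (Ay d ν η T δ) ∧ Integrable (fun y => η y * Py d ν T δ y) ∧
  Integrable (fun y => η y * Ry d T δ y) ∧
  ∀ y, |Ay d ν η T δ y| ≤ 2 * T * ‖fderiv ℝ η y‖ ∧ 0 ≤ Py d ν T δ y ∧ 0 ≤ Ry d T δ y ∧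
    Ry d T δ y ≤ 1

/-- The regularised inequality. -/
def S_TIL0 : Prop := ∀ (M : Surf) (η : ℂ → ℝ) (T₀ T R : ℝ) (d : E → ℝ) (ν : E → E) (δ₀ : ℝ),
  T1Hyp M η T₀ T R d ν δ₀ → ∀ ε : ℝ, 0 < ε → ∀ᶠ δ in 𝓝[>] (0 : ℝ),
    -∫ y, Ay d ν η T δ y ≤ (∫ x in lay T, η (pr x) ∂M.μ) - (∫ y, η y * Py d ν T δ y)
      + (∫ y, η y * Ry d T δ y) + ε

/-- The limit of the main term. -/
def S_TIL1 : Prop := ∀ (M : Surf) (η : ℂ → ℝ) (T₀ T R : ℝ) (d : E → ℝ) (ν : E → E) (δ₀ : ℝ),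
  T1Hyp M η T₀ T R d ν δ₀ → Measurable (M.ellT T) ∧
  Tendsto (fun δ : ℝ => -∫ y, Ay d ν η T δ y) (𝓝[>] 0)
    (𝓝 (∫ x in lay T ∩ M.top e3, M.ellT T x * fderiv ℝ η (pr x) (pr (M.N x)) * M.N x 2 ∂M.μ))

/-- The lower limit of the positive term. -/
def S_TIL2 : Prop := ∀ (M : Surf) (η : ℂ → ℝ) (T₀ T R : ℝ) (d : E → ℝ) (ν : E → E) (δ₀ : ℝ),
  T1Hyp M η T₀ T R d ν δ₀ → M.Slab (tsupport η) T₀ T → ∀ ε : ℝ, 0 < ε → ∀ᶠ δ in 𝓝[>] (0 : ℝ),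
    (∫ x in lay T ∩ M.top e3, η (pr x) * (M.edx e3 x + 2 * M.N x 2) * M.N x 2 ∂M.μ) - ε
      ≤ ∫ y, η y * Py d ν T δ y

end MW
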