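import Mathlib

/-!
# Meeks–Wolf: the definitions used in the statement
-/

open MeasureTheory Set Metric
open scoped RealInnerProductSpace ENNReal Real

noncomputable section

namespace MW

/-- Euclidean three-space. -/
abbrev E := EuclideanSpace ℝ (Fin 3)

/-- The Euclidean plane, the model space of the surface. -/
abbrev E2 := EuclideanSpace ℝ (Fin 2)

/-- The similarity `x ↦ c A x + b`. -/
def simMap (A : E ≃ₗᵢ[ℝ] E) (c : ℝ) (b : E) (x : E) : E := c • A x + b

/-- `S` is the image of the model set `T` under a rigid motion and a homothety. -/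
def SimTo (S T : Set E) : Prop :=
  ∃ (A : E ≃ₗᵢ[ℝ] E) (c : ℝ) (b : E), 0 < c ∧ S = simMap A c b '' T

/-- A plane. -/
def IsPlane (S : Set E) : Prop := SimTo S {x | x 2 = 0}

/-- A catenoid. -/
def IsCatenoid (S : Set E) : Prop := SimTo S {x | x 0 ^ 2 + x 1 ^ 2 = Real.cosh (x 2) ^ 2}

/-- A singly periodic Scherk surface. -/
def IsScherk (S : Set E) : Prop :=
  ∃ θ : ℝ, 0 < θ ∧ θ < π / 2 ∧ SimTo S {x | Real.cos θ ^ 2 * Real.cosh (x 0 / Real.cos θ)
    - Real.sin θ ^ 2 * Real.cosh (x 1 / Real.sin θ) = Real.cos (x 2)}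

/-- First derivative of a parametrisation in the coordinate direction `i`. -/
def d1 (F : E2 → E) (i : Fin 2) (u : E2) : E := fderiv ℝ F u (EuclideanSpace.single i 1)

/-- Second derivative in the coordinate directions `i`, `j`. -/
def d2 (F : E2 → E) (i j : Fin 2) (u : E2) : E :=
  fderiv ℝ (d1 F i) u (EuclideanSpace.single j 1)

/-- Coefficients of the first fundamental form. -/
def gram (F : E2 → E) (i j : Fin 2) (u : E2) : ℝ := ⟪d1 F i u, d1 F j u⟫

/-- The area element `√(EG - F²)`. -/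
def areaEl (F : E2 → E) (u : E2) : ℝ := √(gram F 0 0 u * gram F 1 1 u - gram F 0 1 u ^ 2)

variable {M : Type*} [TopologicalSpace M] [ChartedSpace E2 M]

/-- The map `f` read in the chart at `p`. -/
def loc (f : M → E) (p : M) : E2 → E := f ∘ (chartAt E2 p).symm

/-- Vanishing mean curvature: `G L - 2 F M + E N = 0` in every chart, for every normal vector. -/
def IsMinimal (f : M → E) : Prop :=
  ∀ p : M, ∀ u ∈ (chartAt E2 p).target, ∀ n : E,
    ⟪n, d1 (loc f p) 0 u⟫ = 0 → ⟪n, d1 (loc f p) 1 u⟫ = 0 →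
      gram (loc f p) 1 1 u * ⟪n, d2 (loc f p) 0 0 u⟫
        - 2 * gram (loc f p) 0 1 u * ⟪n, d2 (loc f p) 0 1 u⟫
        + gram (loc f p) 0 0 u * ⟪n, d2 (loc f p) 1 1 u⟫ = 0

/-- Area of `U ⊆ M` in the induced metric: the supremum, over finite families of pairwise
disjoint measurable pieces of `U` lying in charts, of the sum of the integrals of the area
element. -/
def area (f : M → E) (U : Set M) : ℝ≥0∞ :=
  ⨆ (n : ℕ) (p : Fin n → M) (A : Fin n → Set E2)
    (_ : ∀ i, MeasurableSet (A i) ∧ A i ⊆ (chartAt E2 (p i)).target ∧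
      (chartAt E2 (p i)).symm '' A i ⊆ U)
    (_ : ∀ i j, i ≠ j →
      Disjoint ((chartAt E2 (p i)).symm '' A i) ((chartAt E2 (p j)).symm '' A j)),
    ∑ i, ∫⁻ u in A i, ENNReal.ofReal (areaEl (loc f (p i)) u)

end MW
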